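import Pool.Agent.H274R5.FFClus

namespace Pool.Agent.H274R5.FF

open Finset

/-- At most `2r` non-empty dyadic blocks in a window. -/
lemma window_count (S : Finset ℕ) (γ : ℝ) (Q N1 r : ℕ) (a w : ℕ)
    (hwin : ∀ (n : Fin r → ℕ) (k : Fin r → ℕ → ℕ),
        (∀ i, 2 ^ a ≤ n i) → (∀ i, n i ≤ 2 ^ w * 2 ^ a) → (∀ i j, i < j → 2 * n i ≤ n j) →
        (∀ i, Good γ S (n i) (k i)) → False)
    (J : Finset ℕ) (hJ : ∀ j ∈ J, a ≤ j ∧ j < a + w ∧ ∃ n, 2 ^ j ≤ n ∧ n < 2 ^ (j + 1) ∧
      ∃ k, Good γ S n k) : J.card ≤ 2 * r := by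
  classical
  by_contra hcon
  push Not at hcon
  obtain ⟨G, hG, hGc⟩ := Finset.exists_subset_card_eq hcon.le
  set e := G.orderEmbOfFin hGc with he
  have hmem : ∀ i, e i ∈ J := fun i => hG (Finset.orderEmbOfFin_mem G hGc i)
  have h2 : ∀ i : Fin r, 2 * i.1 < 2 * r := fun i => by have := i.2; omega
  have hch : ∀ i : Fin r, ∃ n k, 2 ^ (e ⟨2 * i.1, h2 i⟩) ≤ n ∧ n < 2 ^ (e ⟨2 * i.1, h2 i⟩ + 1) ∧
      Good γ S n k := by
    intro i
    obtain ⟨-, -, n, h3, h4, k, h5⟩ := hJ _ (hmem ⟨2 * i.1, h2 i⟩)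
    exact ⟨n, k, h3, h4, h5⟩
  choose n k hn1 hn2 hk using hch
  refine hwin n k (fun i => ?_) (fun i => ?_) (fun i j hij => ?_) hk
  · exact (Nat.pow_le_pow_right (by norm_num) (hJ _ (hmem _)).1).trans (hn1 i)
  · refine (hn2 i).le.trans ?_
    rw [← pow_add]
    apply Nat.pow_le_pow_right (by norm_num)
    have := (hJ _ (hmem ⟨2 * i.1, h2 i⟩)).2.1
    omega
  · have hij' : i.1 < j.1 := hij
    have hjr := j.2
    have h3 : e ⟨2 * i.1, h2 i⟩ < e ⟨2 * i.1 + 1, by omega⟩ :=
      e.strictMono (Fin.mk_lt_mk.mpr (by omega))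
    have h4 : e ⟨2 * i.1 + 1, by omega⟩ < e ⟨2 * j.1, h2 j⟩ :=
      e.strictMono (Fin.mk_lt_mk.mpr (by omega))
    have h5 : 2 ^ (e ⟨2 * i.1, h2 i⟩ + 2) ≤ 2 ^ (e ⟨2 * j.1, h2 j⟩) :=
      Nat.pow_le_pow_right (by norm_num) (by omega)
    have h6 := hn1 j
    have h7 := hn2 i
    have h8 : 2 ^ (e ⟨2 * i.1, h2 i⟩ + 2) = 2 * 2 ^ (e ⟨2 * i.1, h2 i⟩ + 1) := by ring
    omega

/-- Number of non-empty dyadic blocks below `Y`. -/
lemma blocks_count (S : Finset ℕ) (hS : ∀ p ∈ S, Nat.Prime p) (γ : ℝ) (hγ0 : 0 < γ)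
    (hγ1 : γ ≤ 1 / 2) :
    ∃ r s0 : ℕ, 1 ≤ r ∧ ∀ Y s w : ℕ, s = Nat.sqrt Y → w = Nat.log 2 s / (4 * r) → s0 ≤ s →
      1 ≤ w → ∀ J : Finset ℕ, (∀ j ∈ J, j < Y ∧ ∃ n, 2 ^ j ≤ n ∧ n < 2 ^ (j + 1) ∧
        ∃ k, Good γ S n k) → J.card ≤ s + 2 * r * (Y / w + 1) := by
  classical
  obtain ⟨Q, N1, hQ1, hwin⟩ := window S hS γ hγ0 hγ1
  obtain ⟨r, hr⟩ : ∃ r, r = S.card + 2 := ⟨_, rfl⟩
  obtain ⟨D, hD⟩ : ∃ D : ℝ, D = ((Q * r : ℕ) : ℝ) ^ (2 * r) := ⟨_, rfl⟩
  have hl2 : 0 < Real.log 2 := Real.log_pos (by norm_num)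
  refine ⟨r, ⌈(4 * D / (γ * Real.log 2)) ^ 2⌉₊ + N1 + 1, by omega, ?_⟩
  intro Y s w hs hw hs0 hw1 J hJ
  have hr1 : 1 ≤ r := by omega
  have hs1 : 1 ≤ s := by omega
  -- split
  have hsplit : J.card ≤ (J.filter fun j => j < s).card + (J.filter fun j => ¬ j < s).card := by
    rw [Finset.card_filter_add_card_filter_not]
  have hA : (J.filter fun j => j < s).card ≤ s := by
    calc (J.filter fun j => j < s).card ≤ (Finset.range s).card := by
          apply Finset.card_le_card
          intro j hj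
          rw [Finset.mem_filter] at hj
          exact Finset.mem_range.mpr hj.2
      _ = s := Finset.card_range s
  have hB : (J.filter fun j => ¬ j < s).card ≤ 2 * r * (Finset.range (Y / w + 1)).card := by
    apply Finset.card_le_mul_card_image_of_maps_to (f := fun j => (j - s) / w)
    · intro j hj
      rw [Finset.mem_filter] at hj
      have h1 := (hJ j hj.1).1
      rw [Finset.mem_range]
      have : (j - s) / w ≤ Y / w := Nat.div_le_div_right (by omega)
      omega
    · intro i _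
      apply window_count S γ Q N1 r (s + i * w) w
      · apply hwin r hr (2 ^ (s + i * w)) (2 ^ w)
        · have h1 : s + i * w < 2 ^ (s + i * w) := Nat.lt_two_pow_self
          have h2 : N1 ≤ s := by omega
          nlinarith [Nat.zero_le (i * w)]
        · exact Nat.one_le_two_pow
        · -- size condition
          have hsr : (0 : ℝ) < s := by exact_mod_cast hs1
          have h1 : ((r * 2 ^ w * (Q * r * 2 ^ w) ^ (S.card + 1) : ℕ) : ℝ) ≤
              ((Q * r * 2 ^ w : ℕ) : ℝ) ^ r := by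
            have h2 : r * 2 ^ w * (Q * r * 2 ^ w) ^ (S.card + 1) ≤ (Q * r * 2 ^ w) ^ r := by
              rw [hr, pow_succ (Q * (S.card + 2) * 2 ^ w) (S.card + 1), mul_comm]
              apply Nat.mul_le_mul_left
              apply Nat.mul_le_mul_right
              exact Nat.le_mul_of_pos_left _ hQ1
            exact_mod_cast h2
          have h3 : ((r * 2 ^ w * (Q * r * 2 ^ w) ^ (S.card + 1) : ℕ) : ℝ) ^ 2 ≤
              D * ((2 : ℝ) ^ (2 * r * w)) := by
            calc ((r * 2 ^ w * (Q * r * 2 ^ w) ^ (S.card + 1) : ℕ) : ℝ) ^ 2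
                ≤ (((Q * r * 2 ^ w : ℕ) : ℝ) ^ r) ^ 2 :=
                  pow_le_pow_left₀ (Nat.cast_nonneg _) h1 2
              _ = D * ((2 : ℝ) ^ (2 * r * w)) := by
                  rw [hD]
                  push_cast
                  rw [mul_pow, mul_pow, ← pow_mul, ← pow_mul, ← pow_mul]
                  congr 2 <;> ring
          refine h3.trans ?_
          -- `(2 ^ (2 r w))^2 ≤ s`
          have h4 : ((2 : ℝ) ^ (2 * r * w)) ^ 2 ≤ s := by
            rw [← pow_mul]
            have h5 : 2 * r * w * 2 ≤ Nat.log 2 s := by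
              have : w * (4 * r) ≤ Nat.log 2 s := by rw [hw]; exact Nat.div_mul_le_self _ _
              nlinarith
            have h6 : 2 ^ (2 * r * w * 2) ≤ s :=
              (Nat.pow_le_pow_right (by norm_num) h5).trans (Nat.pow_log_le_self 2 (by omega))
            exact_mod_cast h6
          have h5 : (2 : ℝ) ^ (2 * r * w) ≤ Real.sqrt s := Real.le_sqrt_of_sq_le h4
          have h6 : 4 * D / (γ * Real.log 2) ≤ Real.sqrt s := by
            apply Real.le_sqrt_of_sq_le
            exact (Nat.le_ceil _).trans (by exact_mod_cast (by omega))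
          have h7 : Real.log ((2 ^ (s + i * w) : ℕ) : ℝ) = ((s + i * w : ℕ) : ℝ) * Real.log 2 := by
            push_cast
            rw [Real.log_pow]
            push_cast
            ring
          rw [h7]
          have h8 : 4 * D ≤ Real.sqrt s * (γ * Real.log 2) := by
            rwa [div_le_iff₀ (by positivity)] at h6
          have hD0 : 0 ≤ D := by rw [hD]; positivity
          have h9 : Real.sqrt s * Real.sqrt s = s := Real.mul_self_sqrt hsr.le
          have h10 : D * (2 : ℝ) ^ (2 * r * w) ≤ D * Real.sqrt s :=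
            mul_le_mul_of_nonneg_left h5 hD0
          have h11 : 4 * D * Real.sqrt s ≤ Real.sqrt s * (γ * Real.log 2) * Real.sqrt s :=
            mul_le_mul_of_nonneg_right h8 (Real.sqrt_nonneg _)
          have h12 : Real.sqrt s * (γ * Real.log 2) * Real.sqrt s = (γ * Real.log 2) * s := by
            calc Real.sqrt s * (γ * Real.log 2) * Real.sqrt s =
                (γ * Real.log 2) * (Real.sqrt s * Real.sqrt s) := by ring
              _ = (γ * Real.log 2) * s := by rw [h9]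
          have h13 : (s : ℝ) ≤ ((s + i * w : ℕ) : ℝ) := by exact_mod_cast Nat.le_add_right _ _
          have h14 : (γ * Real.log 2) * s ≤ (γ * Real.log 2) * ((s + i * w : ℕ) : ℝ) :=
            mul_le_mul_of_nonneg_left h13 (by positivity)
          nlinarith
      · intro j hj
        rw [Finset.mem_filter, Finset.mem_filter] at hj
        obtain ⟨⟨hj1, hj2⟩, hj3⟩ := hj
        obtain ⟨-, hj4⟩ := hJ j hj1
        have h1 := Nat.div_add_mod (j - s) w
        have h2 := Nat.mod_lt (j - s) (show 0 < w by omega)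
        rw [hj3] at h1
        rw [mul_comm w i] at h1
        exact ⟨by omega, by omega, hj4⟩
  rw [Finset.card_range] at hB
  omega

end Pool.Agent.H274R5.FF
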