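import Pool.Agent.H274R5.FFWin

namespace Pool.Agent.H274R5.FF

open Finset

lemma pair_id (S : Finset ℕ) (hS : ∀ p ∈ S, Nat.Prime p) (γ : ℝ) (hγ0 : 0 < γ)
    (L : ℝ) (hL : L = ∑ p ∈ S, Real.log p) (N d1 d2 : ℕ) (hN : 3 ≤ N)
    (hNγ : 32 ≤ γ * Real.log N) (hd1 : (d1 : ℝ) * L ≤ γ / 8 * (N * Real.log N))
    (hd2 : (d2 : ℝ) ≤ γ / 16 * N) (n m : ℕ) (hn : N ≤ n) (hm : m < 2 * N) (hnm : n < m)
    (k k' : ℕ → ℕ) (hk : Good γ S n k) (hk' : Good γ S m k')
    (hd2' : m ≤ n + d2) (hd1' : ∀ p ∈ S, k' p ≤ k p + d1) :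
    m.factorial * su S k = n.factorial * su S k' := by
  have hNr : (3 : ℝ) ≤ N := by exact_mod_cast hN
  have hlogN : 1 ≤ Real.log N := by
    rw [Real.le_log_iff_exp_le (by linarith)]
    have := Real.exp_one_lt_d9
    linarith
  set E : ℝ := N * Real.log N with hE
  have hEn : ∀ x : ℕ, N ≤ x → E ≤ (x : ℝ) * Real.log x := by
    intro x hx
    have h1 : (N : ℝ) ≤ x := by exact_mod_cast hx
    exact mul_le_mul h1 (Real.log_le_log (by linarith) h1) (by linarith) (by linarith)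
  have hexp : ∀ x : ℕ, N ≤ x → 2 * Real.exp (-(γ * (x * Real.log x))) ≤
      2 * Real.exp (-(γ * E)) := by
    intro x hx
    apply mul_le_mul_of_nonneg_left _ (by norm_num)
    apply Real.exp_le_exp.mpr
    have := hEn x hx
    nlinarith
  have hγE : 32 * (N : ℝ) ≤ γ * E := by rw [hE]; nlinarith
  have h8 : 8 * Real.exp (-(γ / 2 * E)) < 1 := by
    rw [Real.exp_neg, ← div_eq_mul_inv, div_lt_one (Real.exp_pos _)]
    have := Real.add_one_le_exp (γ / 2 * E)
    nlinarith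
  have hlog2 : Real.log ((2 * N : ℕ) : ℝ) = Real.log 2 + Real.log N := by
    push_cast
    rw [Real.log_mul (by norm_num) (by linarith)]
  have hl2 : Real.log 2 ≤ 1 := by
    have := Real.log_two_lt_d9
    linarith
  have key := master (ι := Fin 2) S hS ![n, m] ![k, k'] ![0, 1] ![1, 0] N (2 * N) 1 d1 d2
    (2 * Real.exp (-(γ * E))) (by omega)
    (by intro i; fin_cases i <;> simp <;> omega)
    (by
      intro i
      fin_cases i
      · simpa using hk.1.trans (hexp n hn)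
      · simpa using hk'.1.trans (hexp m (by omega)))
    (by intro i; fin_cases i <;> simp) (by intro i; fin_cases i <;> simp) (by omega)
    (by simp; omega) (by simp; omega) (by simpa using hd2') (by simp; omega)
    (by intro p hp; simpa using hd1' p hp)
    (by
      rw [Fintype.card_fin]
      have h2 : Real.exp (-(γ * E)) ≤ Real.exp (-(γ / 2 * E)) := by
        apply Real.exp_le_exp.mpr
        nlinarith
      push_cast
      linarith)
    (by
      rw [← hL, hlog2, Fintype.card_fin]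
      have h1 : ((2 * N : ℕ) : ℝ) * (Real.log 2 + Real.log N - Real.log N + 1) ≤ γ / 8 * E := by
        push_cast
        nlinarith
      have h2 : (d2 : ℝ) * (Real.log 2 + Real.log N) ≤ γ / 8 * E := by
        have h3 : (d2 : ℝ) * (Real.log 2 + Real.log N) ≤ (γ / 16 * N) * (2 * Real.log N) := by
          have h0 : 0 ≤ Real.log 2 := Real.log_nonneg (by norm_num)
          exact mul_le_mul hd2 (by linarith) (by linarith) (by positivity)
        have h4 : (γ / 16 * N) * (2 * Real.log N) = γ / 8 * E := by rw [hE]; ring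
        linarith
      have h4 : Real.exp (((2 * N : ℕ) : ℝ) * (Real.log 2 + Real.log N - Real.log N + 1) +
          d2 * (Real.log 2 + Real.log N) + d1 * L) ≤ Real.exp (γ / 2 * E) := by
        apply Real.exp_le_exp.mpr
        have : 0 ≤ γ * E := by linarith
        linarith
      have h5 : Real.exp (γ / 2 * E) * Real.exp (-(γ * E)) = Real.exp (-(γ / 2 * E)) := by
        rw [← Real.exp_add]; congr 1; ring
      calc Real.exp (((2 * N : ℕ) : ℝ) * (Real.log 2 + Real.log N - Real.log N + 1) +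
          d2 * (Real.log 2 + Real.log N) + d1 * L) *
            (2 * (((2 : ℕ) : ℝ) * ((1 : ℕ) : ℝ) * (2 * Real.exp (-(γ * E)))))
          ≤ Real.exp (γ / 2 * E) * (2 * (((2 : ℕ) : ℝ) * ((1 : ℕ) : ℝ) *
              (2 * Real.exp (-(γ * E))))) :=
            mul_le_mul_of_nonneg_right h4 (by positivity)
        _ = 8 * (Real.exp (γ / 2 * E) * Real.exp (-(γ * E))) := by push_cast; ring
        _ = 8 * Real.exp (-(γ / 2 * E)) := by rw [h5]
        _ < 1 := h8)
  simpa using key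

lemma smooth_of_id (S : Finset ℕ) (hS : ∀ p ∈ S, Nat.Prime p) (n m : ℕ) (k k' : ℕ → ℕ)
    (hid : m.factorial * su S k = n.factorial * su S k') (x : ℕ) (h1 : n < x) (h2 : x ≤ m)
    (q : ℕ) (hq : q.Prime) (hqx : q ∣ x) : q ∈ S := by
  by_contra hqS
  have hs0 : ∀ k : ℕ → ℕ, (su S k).factorization q = 0 := fun k =>
    Nat.factorization_eq_zero_of_not_dvd (not_dvd_su S hS k q hq hqS)
  have h3 := congrArg (fun m => m.factorization q) hid
  have hsn : ∀ k, su S k ≠ 0 := fun k => (su_pos S hS k).ne'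
  rw [Nat.factorization_mul (Nat.factorial_ne_zero _) (hsn _),
    Nat.factorization_mul (Nat.factorial_ne_zero _) (hsn _),
    Finsupp.add_apply, Finsupp.add_apply, hs0, hs0] at h3
  have hdvd : n.factorial * x ∣ m.factorial := by
    have h4 : n.factorial ∣ (x - 1).factorial := Nat.factorial_dvd_factorial (by omega)
    have h5 : (x - 1).factorial * x = x.factorial := by
      rw [mul_comm]; exact Nat.mul_factorial_pred (by omega)
    calc n.factorial * x ∣ (x - 1).factorial * x := Nat.mul_dvd_mul_right h4 x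
      _ = x.factorial := h5
      _ ∣ m.factorial := Nat.factorial_dvd_factorial h2
  have h6 := (Nat.factorization_le_iff_dvd (mul_ne_zero (Nat.factorial_ne_zero n) (by omega))
    (Nat.factorial_ne_zero m)).mpr hdvd
  have h7 := h6 q
  rw [Nat.factorization_mul (Nat.factorial_ne_zero _) (by omega), Finsupp.add_apply] at h7
  have h8 := (hq.dvd_iff_one_le_factorization (by omega : x ≠ 0)).mp hqx
  omega

lemma smooth_gap (S : Finset ℕ) (hS : ∀ p ∈ S, Nat.Prime p) (N d m m' : ℕ) (hN : 1 ≤ N)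
    (hm : N ≤ m) (hmm : m < m') (hm' : m' < 2 * N)
    (h1 : ∀ q, q.Prime → q ∣ m → q ∈ S) (h4 : ∀ q, q.Prime → q ∣ m' + 1 → q ∈ S)
    (h5 : ∀ p ∈ S, m.factorization p ≤ m'.factorization p + d)
    (h6 : ∀ p ∈ S, (m' + 1).factorization p ≤ (m + 1).factorization p + d)
    (hR : (∏ p ∈ S, p) ^ (2 * d) ≤ N) : False := by
  set R : ℕ := (∏ p ∈ S, p) ^ (2 * d) with hRd
  have hPpos : 0 < ∏ p ∈ S, p := Finset.prod_pos fun p hp => (hS p hp).pos
  have hRpos : 0 < R := pow_pos hPpos _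
  have hm0 : m ≠ 0 := by omega
  have hm0' : m' ≠ 0 := by omega
  have hm1 : m + 1 ≠ 0 := by omega
  have hm1' : m' + 1 ≠ 0 := by omega
  have hdvd : m * (m' + 1) ∣ (m' * (m + 1)) * R := by
    rw [← Nat.factorization_prime_le_iff_dvd (mul_ne_zero hm0 hm1')
      (mul_ne_zero (mul_ne_zero hm0' hm1) hRpos.ne')]
    intro p hp
    rw [Nat.factorization_mul hm0 hm1', Nat.factorization_mul (mul_ne_zero hm0' hm1)
      hRpos.ne', Nat.factorization_mul hm0' hm1]
    simp only [Finsupp.add_apply]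
    by_cases hpS : p ∈ S
    · have hR1 : 2 * d ≤ R.factorization p := by
        have : p ^ (2 * d) ∣ R := pow_dvd_pow_of_dvd (Finset.dvd_prod_of_mem (fun p => p) hpS) _
        exact (hp.pow_dvd_iff_le_factorization hRpos.ne').mp this
      have := h5 p hpS
      have := h6 p hpS
      omega
    · have e1 : m.factorization p = 0 :=
        Nat.factorization_eq_zero_of_not_dvd fun h => hpS (h1 p hp h)
      have e2 : (m' + 1).factorization p = 0 :=
        Nat.factorization_eq_zero_of_not_dvd fun h => hpS (h4 p hp h)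
      omega
  have hdvd2 : m * (m' + 1) ∣ (m' * (m + 1) - m * (m' + 1)) * R := by
    rw [Nat.sub_mul]
    exact Nat.dvd_sub hdvd (Nat.dvd_mul_right _ _)
  have hdiff : m' * (m + 1) - m * (m' + 1) = m' - m := by
    have : m' * (m + 1) = m * (m' + 1) + (m' - m) := by
      obtain ⟨e, rfl⟩ := Nat.exists_eq_add_of_lt hmm
      have : m + e + 1 - m = e + 1 := by omega
      rw [this]; ring
    omega
  rw [hdiff] at hdvd2
  have hle := Nat.le_of_dvd (Nat.mul_pos (by omega) hRpos) hdvd2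
  have h7 : (m' - m) * R ≤ (N - 1) * N := Nat.mul_le_mul (by omega) hR
  have h8 : N * N ≤ m * (m' + 1) := Nat.mul_le_mul hm (by omega)
  have h9 : (N - 1) * N < N * N := Nat.mul_lt_mul_of_pos_right (by omega) (by omega)
  omega

theorem cluster (S : Finset ℕ) (hS : ∀ p ∈ S, Nat.Prime p) (γ : ℝ) (hγ0 : 0 < γ) :
    ∃ K N2 : ℕ, ∀ N : ℕ, N2 ≤ N → ∀ F : Finset ℕ,
      (∀ n ∈ F, N ≤ n ∧ n < 2 * N ∧ ∃ k, Good γ S n k) → F.card ≤ K := by
  classical
  obtain ⟨L, hL⟩ : ∃ L, L = ∑ p ∈ S, Real.log p := ⟨_, rfl⟩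
  have hL0 : 0 ≤ L := hL ▸ Finset.sum_nonneg fun p _ => Real.log_natCast_nonneg p
  obtain ⟨δ1, hδ1⟩ : ∃ δ1, δ1 = γ / (8 * (L + 1)) := ⟨_, rfl⟩
  obtain ⟨δ2, hδ2⟩ : ∃ δ2, δ2 = γ / 16 := ⟨_, rfl⟩
  obtain ⟨δ3, hδ3⟩ : ∃ δ3, δ3 = 1 / (4 * (L + 1)) := ⟨_, rfl⟩
  have hδ10 : 0 < δ1 := by rw [hδ1]; positivity
  have hδ20 : 0 < δ2 := by rw [hδ2]; positivity
  have hδ30 : 0 < δ3 := by rw [hδ3]; positivity
  have hLL : L / (L + 1) ≤ 1 := by rw [div_le_one (by linarith)]; linarith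
  have hδ1L : δ1 * L ≤ γ / 8 := by
    rw [hδ1]
    have h1 : γ / (8 * (L + 1)) * L = (γ / 8) * (L / (L + 1)) := by field_simp
    rw [h1]
    nlinarith
  have hδ3L : δ3 * L ≤ 1 / 4 := by
    rw [hδ3]
    have h1 : 1 / (4 * (L + 1)) * L = (1 / 4) * (L / (L + 1)) := by field_simp
    rw [h1]
    nlinarith
  obtain ⟨Q, hQ⟩ : ∃ Q, Q = ⌈24 / δ1⌉₊ + ⌈4 / δ2⌉₊ + ⌈6 / δ3⌉₊ + 1 := ⟨_, rfl⟩
  have hQ1 : 24 / δ1 < Q := by
    have h1 := Nat.le_ceil (24 / δ1)
    have h2 : ((⌈24 / δ1⌉₊ : ℕ) : ℝ) + 1 ≤ Q := by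
      exact_mod_cast (by omega : ⌈24 / δ1⌉₊ + 1 ≤ Q)
    linarith
  have hQ2 : 4 / δ2 < Q := by
    have h1 := Nat.le_ceil (4 / δ2)
    have h2 : ((⌈4 / δ2⌉₊ : ℕ) : ℝ) + 1 ≤ Q := by
      exact_mod_cast (by omega : ⌈4 / δ2⌉₊ + 1 ≤ Q)
    linarith
  have hQ3 : 6 / δ3 < Q := by
    have h1 := Nat.le_ceil (6 / δ3)
    have h2 : ((⌈6 / δ3⌉₊ : ℕ) : ℝ) + 1 ≤ Q := by
      exact_mod_cast (by omega : ⌈6 / δ3⌉₊ + 1 ≤ Q)
    linarith
  refine ⟨3 * (Q ^ S.card * (Q * (Q ^ S.card * Q ^ S.card))),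
    ⌈1 / δ1⌉₊ + ⌈1 / δ2⌉₊ + ⌈Real.exp (1 / δ3)⌉₊ + ⌈Real.exp (32 / γ)⌉₊ + 3, ?_⟩
  intro N hN F hF
  by_contra hcon
  push Not at hcon
  have hN3 : 3 ≤ N := by omega
  have hNr : (3 : ℝ) ≤ N := by exact_mod_cast hN3
  have hN0 : (0 : ℝ) < N := by linarith
  have hlogN : 1 ≤ Real.log N := by
    rw [Real.le_log_iff_exp_le (by linarith)]
    have := Real.exp_one_lt_d9
    linarith
  have hNδ1 : 1 ≤ δ1 * N := by
    have h1 : 1 / δ1 ≤ N := (Nat.le_ceil _).trans (by exact_mod_cast (by omega))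
    rwa [div_le_iff₀ hδ10, mul_comm] at h1
  have hNδ2 : 1 ≤ δ2 * N := by
    have h1 : 1 / δ2 ≤ N := (Nat.le_ceil _).trans (by exact_mod_cast (by omega))
    rwa [div_le_iff₀ hδ20, mul_comm] at h1
  have hNδ3 : 1 ≤ δ3 * Real.log N := by
    have h1 : Real.exp (1 / δ3) ≤ N := (Nat.le_ceil _).trans (by exact_mod_cast (by omega))
    have h2 := (Real.le_log_iff_exp_le hN0).mpr h1
    rwa [div_le_iff₀ hδ30, mul_comm] at h2
  have hNγ : 32 ≤ γ * Real.log N := by
    have h1 : Real.exp (32 / γ) ≤ N := (Nat.le_ceil _).trans (by exact_mod_cast (by omega))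
    have h2 := (Real.le_log_iff_exp_le hN0).mpr h1
    rwa [div_le_iff₀ hγ0, mul_comm] at h2
  set E : ℝ := N * Real.log N with hE
  obtain ⟨d1a, d1b, d1c⟩ := half_floor (x := δ1 * E) (by rw [hE]; nlinarith)
  obtain ⟨d2a, d2b, d2c⟩ := half_floor hNδ2
  obtain ⟨d3a, d3b, d3c⟩ := half_floor hNδ3
  set d1 : ℕ := ⌊δ1 * E⌋₊ with hd1
  set d2 : ℕ := ⌊δ2 * N⌋₊ with hd2
  set d3 : ℕ := ⌊δ3 * Real.log N⌋₊ with hd3
  have hE0 : 0 < E := by rw [hE]; positivity
  have hQd1 : 12 * E < Q * d1 := by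
    have h1 : 24 < Q * δ1 := by rwa [div_lt_iff₀ hδ10] at hQ1
    have h2 : (Q : ℝ) * (δ1 * E / 2) ≤ Q * d1 := mul_le_mul_of_nonneg_left d1a (Nat.cast_nonneg _)
    have h3 : (Q : ℝ) * (δ1 * E / 2) = (Q * δ1) * (E / 2) := by ring
    nlinarith
  have hQd2 : 2 * (N : ℝ) < Q * d2 := by
    have h1 : 4 < Q * δ2 := by rwa [div_lt_iff₀ hδ20] at hQ2
    have h2 : (Q : ℝ) * (δ2 * N / 2) ≤ Q * d2 := mul_le_mul_of_nonneg_left d2a (Nat.cast_nonneg _)
    have h3 : (Q : ℝ) * (δ2 * N / 2) = (Q * δ2) * (N / 2) := by ring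
    nlinarith
  have hQd3 : 3 * Real.log N < Q * d3 := by
    have h1 : 6 < Q * δ3 := by rwa [div_lt_iff₀ hδ30] at hQ3
    have h2 : (Q : ℝ) * (δ3 * Real.log N / 2) ≤ Q * d3 :=
      mul_le_mul_of_nonneg_left d3a (Nat.cast_nonneg _)
    have h3 : (Q : ℝ) * (δ3 * Real.log N / 2) = (Q * δ3) * (Real.log N / 2) := by ring
    nlinarith
  have hlog2N : Real.log (2 * N) ≤ 2 * Real.log N := by
    have h1 : Real.log (2 * (N : ℝ)) ≤ Real.log ((N : ℝ) ^ 2) :=
      Real.log_le_log (by linarith) (by nlinarith)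
    rw [Real.log_pow] at h1
    exact_mod_cast h1
  -- choose the exponents
  have hch : ∀ n : ℕ, ∃ k : ℕ → ℕ, n ∈ F → Good γ S n k := by
    intro n
    by_cases h : n ∈ F
    · obtain ⟨k, hk⟩ := (hF n h).2.2
      exact ⟨k, fun _ => hk⟩
    · exact ⟨0, fun h' => absurd h' h⟩
  choose k hk using hch
  have hval : ∀ x : ℕ, 0 < x → x ≤ 2 * N → ∀ p ∈ S, x.factorization p / d3 < Q := by
    intro x hx hx2 p hp
    rw [Nat.div_lt_iff_lt_mul (by omega)]
    have h1 : p ^ x.factorization p ∣ x := Nat.ordProj_dvd x p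
    have h2 : p ^ x.factorization p ≤ 2 * N := (Nat.le_of_dvd hx h1).trans hx2
    have h3 : 2 ^ x.factorization p ≤ 2 * N :=
      (Nat.pow_le_pow_left (hS p hp).two_le _).trans h2
    have h4 : (2 : ℝ) ^ x.factorization p ≤ 2 * N := by exact_mod_cast h3
    have h5 := Real.log_le_log (by positivity) h4
    rw [Real.log_pow] at h5
    have h6 := Real.log_two_gt_d9
    have h7 : (0 : ℝ) ≤ x.factorization p := Nat.cast_nonneg _
    have h8 : (x.factorization p : ℝ) < ((Q * d3 : ℕ) : ℝ) := by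
      push_cast
      nlinarith
    exact_mod_cast h8
  set W : Finset ((S → ℕ) × (ℕ × ((S → ℕ) × (S → ℕ)))) :=
    (Fintype.piFinset (fun _ : S => Finset.range Q)) ×ˢ (Finset.range Q ×ˢ
      ((Fintype.piFinset (fun _ : S => Finset.range Q)) ×ˢ
        (Fintype.piFinset (fun _ : S => Finset.range Q)))) with hW
  have hWc : W.card = Q ^ S.card * (Q * (Q ^ S.card * Q ^ S.card)) := by
    rw [hW, Finset.card_product, Finset.card_product, Finset.card_product,
      Fintype.card_piFinset]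
    simp
  set f : ℕ → (S → ℕ) × (ℕ × ((S → ℕ) × (S → ℕ))) := fun n =>
    ((fun p : S => k n p / d1), (n / d2, ((fun p : S => n.factorization p / d3),
      (fun p : S => (n + 1).factorization p / d3)))) with hf
  have hmaps : ∀ n ∈ F, f n ∈ W := by
    intro n hn
    obtain ⟨hn1, hn2, -⟩ := hF n hn
    have hn1r : (N : ℝ) ≤ n := by exact_mod_cast hn1
    have hn2r : (n : ℝ) ≤ 2 * N := by exact_mod_cast hn2.le
    rw [hW, hf]
    simp only [Finset.mem_product, Fintype.mem_piFinset, Finset.mem_range]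
    refine ⟨fun p => ?_, ?_, fun p => hval n (by omega) (by omega) p p.2,
      fun p => hval (n + 1) (by omega) (by omega) p p.2⟩
    · rw [Nat.div_lt_iff_lt_mul (by omega)]
      have h1 := (hk n hn).2 p p.2
      have h2 : Real.log n ≤ 2 * Real.log N :=
        (Real.log_le_log (by linarith) hn2r).trans hlog2N
      have h3 : (n : ℝ) * Real.log n ≤ (2 * N) * (2 * Real.log N) :=
        mul_le_mul hn2r h2 (Real.log_nonneg (by linarith)) (by linarith)
      have h4 : (k n p : ℝ) < ((Q * d1 : ℕ) : ℝ) := by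
        push_cast
        have h5 : (2 * (N : ℝ)) * (2 * Real.log N) = 4 * E := by rw [hE]; ring
        linarith
      exact_mod_cast h4
    · rw [Nat.div_lt_iff_lt_mul (by omega)]
      have h4 : (n : ℝ) < ((Q * d2 : ℕ) : ℝ) := by
        push_cast
        linarith
      exact_mod_cast h4
  have hcard : W.card * 3 < F.card := by
    rw [hWc, mul_comm]
    exact hcon
  obtain ⟨y, -, hy⟩ := Finset.exists_lt_card_fiber_of_mul_lt_card_of_maps_to hmaps hcard
  obtain ⟨G, hG, hGc⟩ := Finset.exists_subset_card_eq (show 4 ≤ (F.filter fun x => f x = y).card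
    from hy)
  set e := G.orderEmbOfFin hGc with he
  have hmem : ∀ i, e i ∈ F ∧ f (e i) = y := fun i =>
    Finset.mem_filter.mp (hG (Finset.orderEmbOfFin_mem G hGc i))
  have hlt : ∀ i j : Fin 4, i < j → e i < e j := fun i j h => e.strictMono h
  have hR : (∏ p ∈ S, p) ^ (2 * d3) ≤ N := by
    have hPpos : (0 : ℝ) < ∏ p ∈ S, (p : ℝ) := Finset.prod_pos fun p hp => by
      exact_mod_cast (hS p hp).pos
    have h1 : Real.log ((∏ p ∈ S, (p : ℝ)) ^ (2 * d3)) ≤ Real.log N := by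
      rw [Real.log_pow, Real.log_prod (fun p hp => by
        have := (hS p hp).pos
        positivity), ← hL]
      push_cast
      have h2 : (d3 : ℝ) * L ≤ (δ3 * Real.log N) * L := mul_le_mul_of_nonneg_right d3b hL0
      have h3 : (δ3 * Real.log N) * L = (δ3 * L) * Real.log N := by ring
      nlinarith
    have h2 := (Real.log_le_log_iff (by positivity) hN0).mp h1
    have h3 : (((∏ p ∈ S, p) ^ (2 * d3) : ℕ) : ℝ) ≤ (N : ℝ) := by
      push_cast
      exact h2
    exact Nat.cast_le.mp h3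
  have hpair : ∀ i j : Fin 4, i < j → (e j).factorial * su S (k (e i)) =
      (e i).factorial * su S (k (e j)) := by
    intro i j hij
    obtain ⟨hi, hfi⟩ := hmem i
    obtain ⟨hj, hfj⟩ := hmem j
    have hfij : f (e j) = f (e i) := by rw [hfi, hfj]
    rw [hf] at hfij
    simp only [Prod.mk.injEq] at hfij
    obtain ⟨a1, a2, a3, a4⟩ := hfij
    apply pair_id S hS γ hγ0 L hL N d1 d2 hN3 hNγ _ (by rw [← hδ2]; exact d2b)
      (e i) (e j) (hF _ hi).1 (hF _ hj).2.1 (hlt i j hij) (k (e i)) (k (e j)) (hk _ hi) (hk _ hj)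
      (lt_add_of_div_eq (by omega) a2)
      (fun p hp => lt_add_of_div_eq (by omega) (congrFun a1 ⟨p, hp⟩))
    have h2 : (d1 : ℝ) * L ≤ (δ1 * E) * L := mul_le_mul_of_nonneg_right d1b hL0
    have h3 : (δ1 * E) * L = (δ1 * L) * E := by ring
    rw [← hE]
    nlinarith
  have h01 := hlt 0 1 (by decide)
  have h12 := hlt 1 2 (by decide)
  have h23 := hlt 2 3 (by decide)
  have hf12 : f (e 1) = f (e 2) := by rw [(hmem 1).2, (hmem 2).2]
  rw [hf] at hf12
  simp only [Prod.mk.injEq] at hf12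
  obtain ⟨a1, a2, a3, a4⟩ := hf12
  exact smooth_gap S hS N d3 (e 1) (e 2) (by omega) (hF _ (hmem 1).1).1 h12
    (hF _ (hmem 2).1).2.1
    (fun q hq hqd => smooth_of_id S hS _ _ _ _ (hpair 0 1 (by decide)) _ h01 le_rfl q hq hqd)
    (fun q hq hqd => smooth_of_id S hS _ _ _ _ (hpair 2 3 (by decide)) (e 2 + 1) (by omega)
      (by omega) q hq hqd)
    (fun p hp => lt_add_of_div_eq (by omega) (congrFun a3 ⟨p, hp⟩))
    (fun p hp => lt_add_of_div_eq (by omega) (congrFun a4 ⟨p, hp⟩).symm) hR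

end Pool.Agent.H274R5.FF
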