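import Pool.Agent.H274R5.FFBlocks

namespace Pool.Agent.H274R5.FF

open Finset

/-- Every dyadic block has boundedly many good numbers. -/
lemma block_bound (S : Finset ℕ) (hS : ∀ p ∈ S, Nat.Prime p) (γ : ℝ) (hγ0 : 0 < γ) :
    ∃ K : ℕ, ∀ j : ℕ, ∀ F : Finset ℕ,
      (∀ n ∈ F, 2 ^ j ≤ n ∧ n < 2 ^ (j + 1) ∧ ∃ k, Good γ S n k) → F.card ≤ K := by
  obtain ⟨K, N2, hK⟩ := cluster S hS γ hγ0
  refine ⟨K + N2, fun j F hF => ?_⟩
  by_cases h : N2 ≤ 2 ^ j
  · have := hK (2 ^ j) h F (fun n hn => by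
      obtain ⟨h1, h2, h3⟩ := hF n hn
      rw [pow_succ] at h2
      exact ⟨h1, by omega, h3⟩)
    omega
  · have h1 : F ⊆ Finset.Ico (2 ^ j) (2 ^ (j + 1)) := fun n hn => by
      obtain ⟨h1, h2, -⟩ := hF n hn
      exact Finset.mem_Ico.mpr ⟨h1, h2⟩
    have h2 := Finset.card_le_card h1
    rw [Nat.card_Ico, pow_succ] at h2
    omega

lemma count_le (S : Finset ℕ) (hS : ∀ p ∈ S, Nat.Prime p) (γ : ℝ) (hγ0 : 0 < γ)
    (hγ1 : γ ≤ 1 / 2) :
    ∃ C0 : ℝ, 0 < C0 ∧ ∃ X0 : ℕ, ∀ X : ℕ, X0 ≤ X → ∀ F : Finset ℕ,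
      (∀ n ∈ F, 1 ≤ n ∧ n ≤ X ∧ ∃ k, Good γ S n k) →
        (F.card : ℝ) ≤ C0 * (Real.log X / Real.log (Real.log X)) := by
  classical
  obtain ⟨K, hK⟩ := block_bound S hS γ hγ0
  obtain ⟨r, s0, hr1, hbl⟩ := blocks_count S hS γ hγ0 hγ1
  have hrr : (1 : ℝ) ≤ r := by exact_mod_cast hr1
  obtain ⟨x0, hx0⟩ : ∃ x0 : ℝ, x0 = Real.exp (16 * r) + ((s0 : ℝ) + 1) ^ 2 := ⟨_, rfl⟩
  refine ⟨K * (4 + 2 * r * (48 * r + 1)) + 1, by positivity, ⌈Real.exp x0⌉₊, ?_⟩
  intro X hX F hF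
  have hXe : Real.exp x0 ≤ X := (Nat.le_ceil _).trans (by exact_mod_cast hX)
  have hXpos : (0 : ℝ) < X := lt_of_lt_of_le (Real.exp_pos _) hXe
  have hXn : X ≠ 0 := by
    rintro rfl
    simp at hXpos
  set x : ℝ := Real.log X with hx
  have hx0x : x0 ≤ x := (Real.le_log_iff_exp_le hXpos).mpr hXe
  have hxe : Real.exp (16 * r) ≤ x := by
    have : 0 ≤ ((s0 : ℝ) + 1) ^ 2 := by positivity
    linarith
  have hxs : ((s0 : ℝ) + 1) ^ 2 ≤ x := by
    have : 0 < Real.exp (16 * r) := Real.exp_pos _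
    linarith
  have hx1 : 1 ≤ x := by
    have := Real.add_one_le_exp (16 * (r : ℝ))
    linarith
  have hxpos : 0 < x := by linarith
  set lx : ℝ := Real.log x with hlx
  have hlx16 : 16 * (r : ℝ) ≤ lx := (Real.le_log_iff_exp_le hxpos).mpr hxe
  have hlxpos : 0 < lx := by linarith
  obtain ⟨Y, hY⟩ : ∃ Y, Y = Nat.log 2 X + 1 := ⟨_, rfl⟩
  obtain ⟨s, hs⟩ : ∃ s, s = Nat.sqrt Y := ⟨_, rfl⟩
  obtain ⟨w, hw⟩ : ∃ w, w = Nat.log 2 s / (4 * r) := ⟨_, rfl⟩
  have hl2a := Real.log_two_gt_d9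
  have hl2b := Real.log_two_lt_d9
  have hY1 : x < Y := by
    have h1 : X < 2 ^ Y := by rw [hY]; exact Nat.lt_pow_succ_log_self (by norm_num) X
    have h2 : (X : ℝ) < (2 : ℝ) ^ Y := by exact_mod_cast h1
    have h3 := Real.log_lt_log hXpos h2
    rw [Real.log_pow] at h3
    have h4 : (0 : ℝ) ≤ Y := Nat.cast_nonneg _
    nlinarith
  have hY2 : (Y : ℝ) ≤ 3 * x := by
    have h1 : 2 ^ (Y - 1) ≤ X := by rw [hY]; exact Nat.pow_log_le_self 2 hXn
    have h2 : (2 : ℝ) ^ (Y - 1) ≤ X := by exact_mod_cast h1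
    have h3 := Real.log_le_log (by positivity) h2
    rw [Real.log_pow, Nat.cast_sub (by omega)] at h3
    push_cast at h3
    nlinarith
  have hs1 : s * s ≤ Y := by rw [hs]; exact Nat.sqrt_le Y
  have hs2 : Y < (s + 1) * (s + 1) := by rw [hs]; exact Nat.lt_succ_sqrt Y
  have hs2r : (Y : ℝ) < ((s : ℝ) + 1) * (s + 1) := by exact_mod_cast hs2
  have hss0 : s0 ≤ s := by
    by_contra h
    push Not at h
    have h1 : (s : ℝ) + 1 ≤ s0 := by exact_mod_cast h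
    have h2 : (0 : ℝ) ≤ s := Nat.cast_nonneg _
    nlinarith
  have hs1' : 1 ≤ s := by
    by_contra h
    have h0 : s = 0 := by omega
    rw [h0] at hs2r
    push_cast at hs2r
    linarith
  have hu : lx / 2 ≤ (Nat.log 2 s : ℝ) + 1 := by
    have h1 : lx ≤ Real.log (((s : ℝ) + 1) * (s + 1)) :=
      Real.log_le_log hxpos (by linarith)
    have h2 : (0 : ℝ) < (s : ℝ) + 1 := by positivity
    rw [Real.log_mul h2.ne' h2.ne'] at h1
    have h3 : s + 1 ≤ 2 ^ (Nat.log 2 s + 1) := Nat.lt_pow_succ_log_self (by norm_num) s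
    have h4 : (s : ℝ) + 1 ≤ (2 : ℝ) ^ (Nat.log 2 s + 1) := by exact_mod_cast h3
    have h5 := Real.log_le_log h2 h4
    rw [Real.log_pow] at h5
    push_cast at h5
    have h6 : (0 : ℝ) ≤ (Nat.log 2 s : ℝ) := Nat.cast_nonneg _
    nlinarith
  have hwb : lx / (16 * r) ≤ w := by
    have h1 := Nat.div_add_mod (Nat.log 2 s) (4 * r)
    have h2 := Nat.mod_lt (Nat.log 2 s) (show 0 < 4 * r by omega)
    rw [← hw] at h1
    have h3 : Nat.log 2 s + 1 ≤ 4 * r * w + 4 * r := by omega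
    have h4 : (Nat.log 2 s : ℝ) + 1 ≤ 4 * r * w + 4 * r := by exact_mod_cast h3
    rw [div_le_iff₀ (by linarith)]
    nlinarith
  have hw1r : (1 : ℝ) ≤ w := by
    refine le_trans ?_ hwb
    rw [le_div_iff₀ (by linarith)]
    linarith
  have hw1 : 1 ≤ w := by exact_mod_cast hw1r
  -- the blocks
  set J : Finset ℕ := (Finset.range Y).filter fun j => ∃ n, 2 ^ j ≤ n ∧ n < 2 ^ (j + 1) ∧
    ∃ k, Good γ S n k with hJ
  have hJc : J.card ≤ s + 2 * r * (Y / w + 1) :=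
    hbl Y s w hs hw hss0 hw1 J fun j hj => by
      rw [hJ, Finset.mem_filter, Finset.mem_range] at hj
      exact hj
  have hFJ : F.card ≤ K * J.card := by
    apply Finset.card_le_mul_card_image_of_maps_to (f := Nat.log 2)
    · intro n hn
      obtain ⟨h1, h2, h3⟩ := hF n hn
      rw [hJ, Finset.mem_filter, Finset.mem_range]
      refine ⟨?_, n, Nat.pow_log_le_self 2 (by omega), Nat.lt_pow_succ_log_self (by norm_num) n,
        h3⟩
      have := Nat.log_mono_right (b := 2) h2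
      omega
    · intro j _
      apply hK j
      intro n hn
      rw [Finset.mem_filter] at hn
      obtain ⟨h1, h2, h3⟩ := hF n hn.1
      refine ⟨?_, ?_, h3⟩
      · rw [← hn.2]; exact Nat.pow_log_le_self 2 (by omega)
      · rw [← hn.2]; exact Nat.lt_pow_succ_log_self (by norm_num) n
  -- real estimates
  have hq : 1 ≤ x / lx := by
    rw [le_div_iff₀ hlxpos]
    have := Real.log_le_sub_one_of_pos hxpos
    linarith
  have hsx : (s : ℝ) ≤ 4 * (x / lx) := by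
    obtain ⟨y, hy⟩ : ∃ y, y = Real.sqrt x := ⟨_, rfl⟩
    have hyy : y * y = x := by rw [hy]; exact Real.mul_self_sqrt hxpos.le
    have hy0 : 0 < y := by rw [hy]; exact Real.sqrt_pos.mpr hxpos
    have h1 : lx ≤ 2 * y := by
      rw [hlx, ← hyy, Real.log_mul hy0.ne' hy0.ne']
      have := Real.log_le_sub_one_of_pos hy0
      linarith
    have h2 : (s : ℝ) ≤ 2 * y := by
      by_contra h
      push Not at h
      have h3 : (s : ℝ) * s ≤ Y := by exact_mod_cast hs1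
      nlinarith
    have h3 : (s : ℝ) * lx ≤ 4 * x := by
      calc (s : ℝ) * lx ≤ (2 * y) * (2 * y) := mul_le_mul h2 h1 hlxpos.le (by linarith)
        _ = 4 * x := by rw [← hyy]; ring
    rw [← mul_div_assoc, le_div_iff₀ hlxpos]
    exact h3
  have hYw : ((Y / w : ℕ) : ℝ) ≤ 48 * r * (x / lx) := by
    refine (Nat.cast_div_le).trans ?_
    rw [div_le_iff₀ (by linarith)]
    have h1 : 48 * (r : ℝ) * (x / lx) * (lx / (16 * r)) = 3 * x := by
      field_simp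
      ring
    have h2 : 48 * (r : ℝ) * (x / lx) * (lx / (16 * r)) ≤ 48 * r * (x / lx) * w :=
      mul_le_mul_of_nonneg_left hwb (by positivity)
    linarith
  have hJr : (J.card : ℝ) ≤ (4 + 2 * r * (48 * r + 1)) * (x / lx) := by
    have h1 : (J.card : ℝ) ≤ s + 2 * r * (((Y / w : ℕ) : ℝ) + 1) := by exact_mod_cast hJc
    have h2 : 2 * (r : ℝ) * (((Y / w : ℕ) : ℝ) + 1) ≤ 2 * r * (48 * r * (x / lx) + x / lx) :=
      mul_le_mul_of_nonneg_left (by linarith) (by positivity)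
    have h3 : 2 * (r : ℝ) * (48 * r * (x / lx) + x / lx) = 2 * r * (48 * r + 1) * (x / lx) := by
      ring
    linarith
  have hFr : (F.card : ℝ) ≤ K * J.card := by exact_mod_cast hFJ
  have hK0 : (0 : ℝ) ≤ K := Nat.cast_nonneg _
  have h5 : (K : ℝ) * J.card ≤ K * ((4 + 2 * r * (48 * r + 1)) * (x / lx)) :=
    mul_le_mul_of_nonneg_left hJr hK0
  have h6 : (K : ℝ) * ((4 + 2 * r * (48 * r + 1)) * (x / lx)) =
      (K * (4 + 2 * r * (48 * r + 1))) * (x / lx) := by ring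
  have h7 : (K * (4 + 2 * (r : ℝ) * (48 * r + 1)) + 1) * (x / lx) =
      (K * (4 + 2 * r * (48 * r + 1))) * (x / lx) + x / lx := by ring
  rw [h7]
  linarith

end Pool.Agent.H274R5.FF
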