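import Mathlib

namespace Pool.Agent.H274R5.FF

open Finset

/-- The `S`-unit with exponent vector `k`. -/
def su (S : Finset ℕ) (k : ℕ → ℕ) : ℕ := ∏ p ∈ S, p ^ k p

lemma su_pos (S : Finset ℕ) (hS : ∀ p ∈ S, Nat.Prime p) (k : ℕ → ℕ) : 0 < su S k :=
  Finset.prod_pos fun p hp => pow_pos (hS p hp).pos _

lemma log_su (S : Finset ℕ) (hS : ∀ p ∈ S, Nat.Prime p) (k : ℕ → ℕ) :
    Real.log (su S k) = ∑ p ∈ S, (k p : ℝ) * Real.log p := by
  unfold su
  push_cast
  rw [Real.log_prod (fun p hp => by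
    have := (hS p hp).pos
    positivity)]
  exact Finset.sum_congr rfl fun p _ => by rw [Real.log_pow]

lemma log_fact_lb (n : ℕ) (hn : 1 ≤ n) :
    (n : ℝ) * Real.log n - n ≤ Real.log n.factorial := by
  have hn0 : (0 : ℝ) < n := by exact_mod_cast hn
  have hf : (0 : ℝ) < n.factorial := by exact_mod_cast n.factorial_pos
  have h := Real.pow_div_factorial_le_exp (n : ℝ) hn0.le n
  rw [div_le_iff₀ hf] at h
  have h2 := Real.log_le_log (by positivity) h
  rw [Real.log_mul (Real.exp_pos _).ne' hf.ne', Real.log_exp, Real.log_pow] at h2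
  linarith

lemma log_fact_ub (n : ℕ) : Real.log n.factorial ≤ n * Real.log n := by
  rw [← Real.log_pow]
  apply Real.log_le_log (by exact_mod_cast n.factorial_pos)
  exact_mod_cast n.factorial_le_pow

lemma log_quot (m T U d f : ℕ) (hf : T.factorial = m.factorial * f) (h : m ≤ T)
    (hd : T ≤ m + d) (hU : T ≤ U) (hU1 : 1 ≤ U) :
    Real.log f ≤ d * Real.log U := by
  obtain ⟨e, rfl⟩ := Nat.exists_eq_add_of_le h
  have he : e ≤ d := by omega
  have h1 := Nat.factorial_mul_ascFactorial m e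
  rw [hf] at h1
  have h2 : (m + 1).ascFactorial e = f := Nat.eq_of_mul_eq_mul_left m.factorial_pos h1
  have h3 := Nat.ascFactorial_le_pow_add m e
  rw [h2] at h3
  have hfp : 0 < f := by
    rcases Nat.eq_zero_or_pos f with h0 | h0
    · rw [h0, mul_zero] at hf
      exact absurd hf (Nat.factorial_ne_zero _)
    · exact h0
  have h4 : f ≤ U ^ d := h3.trans ((Nat.pow_le_pow_left hU e).trans (Nat.pow_le_pow_right hU1 he))
  rw [← Real.log_pow]
  exact Real.log_le_log (by exact_mod_cast hfp) (by exact_mod_cast h4)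

lemma prod_fact_dvd {ι : Type*} [Fintype ι] (n b : ι → ℕ) :
    (∏ i, (n i).factorial ^ b i) ∣ (∑ i, b i * n i).factorial := by
  refine (Finset.prod_dvd_prod_of_dvd _ _ fun i _ => ?_).trans
    (Nat.prod_factorial_dvd_factorial_sum Finset.univ (fun i => b i * n i))
  have := Nat.prod_factorial_dvd_factorial_sum (Finset.range (b i)) (fun _ => n i)
  simpa using this

lemma log_M {ι : Type*} [Fintype ι] (n b : ι → ℕ) (N U M : ℕ) (hN : 1 ≤ N)
    (hn : ∀ i, N ≤ n i) (hNU : N ≤ U) (hT : ∑ i, b i * n i ≤ U)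
    (hM : (∑ i, b i * n i).factorial = (∏ i, (n i).factorial ^ b i) * M) :
    Real.log M ≤ U * (Real.log U - Real.log N + 1) := by
  have hp : (0 : ℝ) < ((∏ i, (n i).factorial ^ b i : ℕ) : ℝ) := by
    have : 0 < ∏ i, (n i).factorial ^ b i :=
      Finset.prod_pos fun i _ => pow_pos (Nat.factorial_pos _) _
    exact_mod_cast this
  have hMp : (0 : ℝ) < M := by
    rcases Nat.eq_zero_or_pos M with h0 | h0
    · rw [h0, mul_zero] at hM
      exact absurd hM (Nat.factorial_ne_zero _)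
    · exact_mod_cast h0
  have h1 : Real.log (∑ i, b i * n i).factorial =
      ∑ i, (b i : ℝ) * Real.log (n i).factorial + Real.log M := by
    rw [hM]
    push_cast
    rw [Real.log_mul (by push_cast at hp; exact hp.ne') hMp.ne', Real.log_prod (fun i _ => by
      have := Nat.factorial_pos (n i)
      positivity)]
    congr 1
    exact Finset.sum_congr rfl fun i _ => by rw [Real.log_pow]
  have hNr : (1 : ℝ) ≤ N := by exact_mod_cast hN
  have hNUr : (N : ℝ) ≤ U := by exact_mod_cast hNU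
  have hlog : Real.log N ≤ Real.log U := Real.log_le_log (by linarith) hNUr
  have h2 := log_fact_ub (∑ i, b i * n i)
  have h3 : ∑ i, ((b i : ℝ) * n i) * (Real.log N - 1) ≤
      ∑ i, (b i : ℝ) * Real.log (n i).factorial := by
    apply Finset.sum_le_sum
    intro i _
    have a1 := log_fact_lb (n i) (hN.trans (hn i))
    have a2 : Real.log N ≤ Real.log (n i) :=
      Real.log_le_log (by linarith) (by exact_mod_cast hn i)
    have a3 : (n i : ℝ) * (Real.log N - 1) ≤ Real.log (n i).factorial := by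
      have : (0 : ℝ) ≤ n i := Nat.cast_nonneg _
      nlinarith
    have : (0 : ℝ) ≤ b i := Nat.cast_nonneg _
    nlinarith
  rw [← Finset.sum_mul] at h3
  have hTr : ((∑ i, b i * n i : ℕ) : ℝ) = ∑ i, (b i : ℝ) * n i := by push_cast; rfl
  rw [← hTr] at h3
  set T : ℕ := ∑ i, b i * n i with hTdef
  have hTUr : (T : ℝ) ≤ U := by exact_mod_cast hT
  have h4 : (T : ℝ) * Real.log T ≤ T * Real.log U := by
    rcases Nat.eq_zero_or_pos T with h0 | h0
    · rw [h0]; simp
    · have : (0 : ℝ) < T := by exact_mod_cast h0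
      exact mul_le_mul_of_nonneg_left (Real.log_le_log this hTUr) this.le
  have h5 : (T : ℝ) * (Real.log U - Real.log N + 1) ≤ U * (Real.log U - Real.log N + 1) :=
    mul_le_mul_of_nonneg_right hTUr (by linarith)
  nlinarith

theorem master {ι : Type*} [Fintype ι] (S : Finset ℕ) (hS : ∀ p ∈ S, Nat.Prime p)
    (n : ι → ℕ) (k : ι → ℕ → ℕ) (b b' : ι → ℕ) (N U A d1 d2 : ℕ) (ε : ℝ)
    (hN : 1 ≤ N) (hn : ∀ i, N ≤ n i)
    (hclose : ∀ i, |Real.log (su S (k i)) - Real.log (n i).factorial| ≤ ε)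
    (hb : ∀ i, b i ≤ A) (hb' : ∀ i, b' i ≤ A) (hNU : N ≤ U)
    (hT : ∑ i, b i * n i ≤ U) (hT' : ∑ i, b' i * n i ≤ U)
    (hTT : ∑ i, b i * n i ≤ ∑ i, b' i * n i + d2)
    (hTT' : ∑ i, b' i * n i ≤ ∑ i, b i * n i + d2)
    (hk : ∀ p ∈ S, ∑ i, b i * k i p ≤ ∑ i, b' i * k i p + d1)
    (hε : Fintype.card ι * A * ε ≤ 1)
    (hsmall : Real.exp (U * (Real.log U - Real.log N + 1) + d2 * Real.log U +
      d1 * ∑ p ∈ S, Real.log p) * (2 * (Fintype.card ι * A * ε)) < 1) :
    (∏ i, (n i).factorial ^ b i) * (∏ i, su S (k i) ^ b' i) =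
      (∏ i, (n i).factorial ^ b' i) * (∏ i, su S (k i) ^ b i) := by
  classical
  have hU1 : 1 ≤ U := hN.trans hNU
  set T : ℕ := ∑ i, b i * n i with hTd
  set T' : ℕ := ∑ i, b' i * n i with hTd'
  obtain ⟨M, hM⟩ := prod_fact_dvd n b
  obtain ⟨M', hM'⟩ := prod_fact_dvd n b'
  obtain ⟨f1, hf1⟩ := Nat.factorial_dvd_factorial (min_le_left T T')
  obtain ⟨f2, hf2⟩ := Nat.factorial_dvd_factorial (min_le_right T T')
  have pos_of : ∀ a c d : ℕ, a.factorial = c * d → 0 < c ∧ 0 < d := by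
    intro a c d h
    constructor
    · rcases Nat.eq_zero_or_pos c with h0 | h0
      · rw [h0, zero_mul] at h; exact absurd h (Nat.factorial_ne_zero _)
      · exact h0
    · rcases Nat.eq_zero_or_pos d with h0 | h0
      · rw [h0, mul_zero] at h; exact absurd h (Nat.factorial_ne_zero _)
      · exact h0
  have hMp := (pos_of _ _ _ hM).2
  have hMp' := (pos_of _ _ _ hM').2
  have hf1p := (pos_of _ _ _ hf1).2
  have hf2p := (pos_of _ _ _ hf2).2
  set κ : ℕ → ℕ := fun p => ∑ i, b i * k i p with hκ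
  set κ' : ℕ → ℕ := fun p => ∑ i, b' i * k i p with hκ'
  -- the two integers
  set x1 : ℕ := f1 * M' * su S (fun p => κ' p - min (κ p) (κ' p)) with hx1
  set x2 : ℕ := f2 * M * su S (fun p => κ p - min (κ p) (κ' p)) with hx2
  have hx1p : 0 < x1 := Nat.mul_pos (Nat.mul_pos hf1p hMp') (su_pos S hS _)
  have hx2p : 0 < x2 := Nat.mul_pos (Nat.mul_pos hf2p hMp) (su_pos S hS _)
  have hx1r : (0 : ℝ) < x1 := by exact_mod_cast hx1p
  have hx2r : (0 : ℝ) < x2 := by exact_mod_cast hx2p
  have logmul3 : ∀ a c d : ℕ, 0 < a → 0 < c → 0 < d →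
      Real.log ((a * c * d : ℕ) : ℝ) = Real.log a + Real.log c + Real.log d := by
    intro a c d ha hc hd
    have ha' : (a : ℝ) ≠ 0 := by exact_mod_cast ha.ne'
    have hc' : (c : ℝ) ≠ 0 := by exact_mod_cast hc.ne'
    have hd' : (d : ℝ) ≠ 0 := by exact_mod_cast hd.ne'
    push_cast
    rw [Real.log_mul (mul_ne_zero ha' hc') hd', Real.log_mul ha' hc']
  have lx1 : Real.log x1 = Real.log f1 + Real.log M' +
      ∑ p ∈ S, ((κ' p - min (κ p) (κ' p) : ℕ) : ℝ) * Real.log p := by
    rw [hx1, logmul3 _ _ _ hf1p hMp' (su_pos S hS _), log_su S hS]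
  have lx2 : Real.log x2 = Real.log f2 + Real.log M +
      ∑ p ∈ S, ((κ p - min (κ p) (κ' p) : ℕ) : ℝ) * Real.log p := by
    rw [hx2, logmul3 _ _ _ hf2p hMp (su_pos S hS _), log_su S hS]
  have logprod : ∀ c : ι → ℕ, Real.log ((∏ i, (n i).factorial ^ c i : ℕ) : ℝ) =
      ∑ i, (c i : ℝ) * Real.log (n i).factorial := by
    intro c
    push_cast
    rw [Real.log_prod (fun i _ => by have := Nat.factorial_pos (n i); positivity)]
    exact Finset.sum_congr rfl fun i _ => by rw [Real.log_pow]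
  have logprodS : ∀ c : ι → ℕ, Real.log ((∏ i, su S (k i) ^ c i : ℕ) : ℝ) =
      ∑ i, (c i : ℝ) * Real.log (su S (k i)) := by
    intro c
    push_cast
    rw [Real.log_prod (fun i _ => by have := su_pos S hS (k i); positivity)]
    exact Finset.sum_congr rfl fun i _ => by rw [Real.log_pow]
  have logmul2 : ∀ a c : ℕ, 0 < a → 0 < c →
      Real.log ((a * c : ℕ) : ℝ) = Real.log a + Real.log c := by
    intro a c ha hc
    have ha' : (a : ℝ) ≠ 0 := by exact_mod_cast ha.ne'
    have hc' : (c : ℝ) ≠ 0 := by exact_mod_cast hc.ne'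
    push_cast
    rw [Real.log_mul ha' hc']
  have e1 : Real.log T.factorial = ∑ i, (b i : ℝ) * Real.log (n i).factorial + Real.log M := by
    rw [hM, logmul2 _ _ (pos_of _ _ _ hM).1 hMp, logprod]
  have e2 : Real.log T'.factorial = ∑ i, (b' i : ℝ) * Real.log (n i).factorial + Real.log M' := by
    rw [hM', logmul2 _ _ (pos_of _ _ _ hM').1 hMp', logprod]
  have e3 : Real.log T.factorial = Real.log (min T T').factorial + Real.log f1 := by
    rw [hf1, logmul2 _ _ (pos_of _ _ _ hf1).1 hf1p]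
  have e4 : Real.log T'.factorial = Real.log (min T T').factorial + Real.log f2 := by
    rw [hf2, logmul2 _ _ (pos_of _ _ _ hf2).1 hf2p]
  have lsum : ∀ c : ι → ℕ, ∑ i, (c i : ℝ) * Real.log (su S (k i)) =
      ∑ p ∈ S, ((∑ i, c i * k i p : ℕ) : ℝ) * Real.log p := by
    intro c
    have : ∀ i, (c i : ℝ) * Real.log (su S (k i)) =
        ∑ p ∈ S, (c i : ℝ) * ((k i p : ℝ) * Real.log p) := by
      intro i
      rw [log_su S hS, Finset.mul_sum]
    rw [Finset.sum_congr rfl fun i _ => this i, Finset.sum_comm]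
    refine Finset.sum_congr rfl fun p _ => ?_
    push_cast
    rw [Finset.sum_mul]
    exact Finset.sum_congr rfl fun i _ => by ring
  have e5 := lsum b
  have e6 := lsum b'
  have e7 : ∑ p ∈ S, ((κ' p - min (κ p) (κ' p) : ℕ) : ℝ) * Real.log p -
      ∑ p ∈ S, ((κ p - min (κ p) (κ' p) : ℕ) : ℝ) * Real.log p =
      ∑ i, (b' i : ℝ) * Real.log (su S (k i)) - ∑ i, (b i : ℝ) * Real.log (su S (k i)) := by
    rw [e5, e6, ← Finset.sum_sub_distrib, ← Finset.sum_sub_distrib]
    refine Finset.sum_congr rfl fun p _ => ?_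
    rw [← sub_mul, ← sub_mul]
    congr 1
    rw [Nat.cast_sub (min_le_right _ _), Nat.cast_sub (min_le_left _ _)]
    ring
  have hZ : Real.log x1 - Real.log x2 =
      ∑ i, ((b i : ℝ) - b' i) * (Real.log (n i).factorial - Real.log (su S (k i))) := by
    have : ∑ i, ((b i : ℝ) - b' i) * (Real.log (n i).factorial - Real.log (su S (k i))) =
        ∑ i, (b i : ℝ) * Real.log (n i).factorial - ∑ i, (b' i : ℝ) * Real.log (n i).factorial
        + (∑ i, (b' i : ℝ) * Real.log (su S (k i)) - ∑ i, (b i : ℝ) * Real.log (su S (k i))) := by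
      rw [← Finset.sum_sub_distrib, ← Finset.sum_sub_distrib, ← Finset.sum_add_distrib]
      exact Finset.sum_congr rfl fun i _ => by ring
    rw [this, lx1, lx2]
    linarith
  have hZb : |Real.log x1 - Real.log x2| ≤ Fintype.card ι * A * ε := by
    rw [hZ]
    calc |∑ i, ((b i : ℝ) - b' i) * (Real.log (n i).factorial - Real.log (su S (k i)))|
        ≤ ∑ i, |((b i : ℝ) - b' i) * (Real.log (n i).factorial - Real.log (su S (k i)))| :=
          Finset.abs_sum_le_sum_abs _ _
      _ ≤ ∑ _i : ι, (A : ℝ) * ε := by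
          apply Finset.sum_le_sum
          intro i _
          rw [abs_mul]
          have h1 : |(b i : ℝ) - b' i| ≤ A := by
            have a1 : (b i : ℝ) ≤ A := by exact_mod_cast hb i
            have a2 : (b' i : ℝ) ≤ A := by exact_mod_cast hb' i
            have a3 : (0 : ℝ) ≤ b i := Nat.cast_nonneg _
            have a4 : (0 : ℝ) ≤ b' i := Nat.cast_nonneg _
            rw [abs_le]; constructor <;> linarith
          have h2 := hclose i
          rw [abs_sub_comm] at h2
          exact mul_le_mul h1 h2 (abs_nonneg _) (Nat.cast_nonneg _)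
      _ = Fintype.card ι * A * ε := by
          rw [Finset.sum_const, Finset.card_univ, nsmul_eq_mul]; ring
  -- upper bound for x2
  have hf2b : Real.log f2 ≤ d2 * Real.log U :=
    log_quot (min T T') T' U d2 f2 hf2 (min_le_right _ _) (by omega) hT' hU1
  have hMb := log_M n b N U M hN hn hNU hT hM
  have hSb : ∑ p ∈ S, ((κ p - min (κ p) (κ' p) : ℕ) : ℝ) * Real.log p ≤
      d1 * ∑ p ∈ S, Real.log p := by
    rw [Finset.mul_sum]
    apply Finset.sum_le_sum
    intro p hp
    apply mul_le_mul_of_nonneg_right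
    · have := hk p hp
      have h2 : κ p - min (κ p) (κ' p) ≤ d1 := by
        simp only [hκ, hκ']
        omega
      exact_mod_cast h2
    · exact Real.log_natCast_nonneg p
  have hx2b : (x2 : ℝ) ≤ Real.exp (U * (Real.log U - Real.log N + 1) + d2 * Real.log U +
      d1 * ∑ p ∈ S, Real.log p) := by
    rw [← Real.log_le_iff_le_exp hx2r, lx2]
    linarith
  have hZ1 : |Real.log x1 - Real.log x2| ≤ 1 := hZb.trans hε
  have h8 := Real.abs_exp_sub_one_le hZ1
  have h9 : Real.exp (Real.log x1 - Real.log x2) = x1 / x2 := by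
    rw [Real.exp_sub, Real.exp_log hx1r, Real.exp_log hx2r]
  rw [h9] at h8
  have h10 : |(x1 : ℝ) - x2| < 1 := by
    have : (x1 : ℝ) - x2 = x2 * (x1 / x2 - 1) := by field_simp
    rw [this, abs_mul, abs_of_pos hx2r]
    have hc0 : 0 ≤ (Fintype.card ι : ℝ) * A * ε := (abs_nonneg _).trans hZb
    calc (x2 : ℝ) * |(x1 : ℝ) / x2 - 1| ≤ Real.exp (U * (Real.log U - Real.log N + 1) +
          d2 * Real.log U + d1 * ∑ p ∈ S, Real.log p) * (2 * (Fintype.card ι * A * ε)) := by
          apply mul_le_mul hx2b (h8.trans (by linarith)) (abs_nonneg _) (Real.exp_pos _).le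
      _ < 1 := hsmall
  have h11 : x1 = x2 := by
    have h12 : |((x1 : ℤ) - (x2 : ℤ))| < 1 := by
      have : ((|((x1 : ℤ) - (x2 : ℤ))| : ℤ) : ℝ) < 1 := by push_cast; exact h10
      exact_mod_cast this
    have := Int.abs_lt_one_iff.mp h12
    omega
  rw [h11, sub_self] at hZ
  -- conclude
  have hl : Real.log (((∏ i, (n i).factorial ^ b i) * (∏ i, su S (k i) ^ b' i) : ℕ) : ℝ) =
      Real.log (((∏ i, (n i).factorial ^ b' i) * (∏ i, su S (k i) ^ b i) : ℕ) : ℝ) := by
    have q1 : ∀ c : ι → ℕ, 0 < ∏ i, (n i).factorial ^ c i := fun c =>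
      Finset.prod_pos fun i _ => pow_pos (Nat.factorial_pos _) _
    have q2 : ∀ c : ι → ℕ, 0 < ∏ i, su S (k i) ^ c i := fun c =>
      Finset.prod_pos fun i _ => pow_pos (su_pos S hS _) _
    rw [logmul2 _ _ (q1 b) (q2 b'), logmul2 _ _ (q1 b') (q2 b), logprod, logprod, logprodS,
      logprodS]
    have : ∑ i, ((b i : ℝ) - b' i) * (Real.log (n i).factorial - Real.log (su S (k i))) =
        ∑ i, (b i : ℝ) * Real.log (n i).factorial - ∑ i, (b' i : ℝ) * Real.log (n i).factorial
        + (∑ i, (b' i : ℝ) * Real.log (su S (k i)) - ∑ i, (b i : ℝ) * Real.log (su S (k i))) := by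
      rw [← Finset.sum_sub_distrib, ← Finset.sum_sub_distrib, ← Finset.sum_add_distrib]
      exact Finset.sum_congr rfl fun i _ => by ring
    rw [this] at hZ
    linarith
  have q1 : ∀ c : ι → ℕ, 0 < ∏ i, (n i).factorial ^ c i := fun c =>
    Finset.prod_pos fun i _ => pow_pos (Nat.factorial_pos _) _
  have q2 : ∀ c : ι → ℕ, 0 < ∏ i, su S (k i) ^ c i := fun c =>
    Finset.prod_pos fun i _ => pow_pos (su_pos S hS _) _
  have := Real.log_injOn_pos
    (Set.mem_Ioi.mpr (by exact_mod_cast Nat.mul_pos (q1 b) (q2 b') :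
      (0 : ℝ) < (((∏ i, (n i).factorial ^ b i) * (∏ i, su S (k i) ^ b' i) : ℕ) : ℝ)))
    (Set.mem_Ioi.mpr (by exact_mod_cast Nat.mul_pos (q1 b') (q2 b) :
      (0 : ℝ) < (((∏ i, (n i).factorial ^ b' i) * (∏ i, su S (k i) ^ b i) : ℕ) : ℝ))) hl
  exact_mod_cast this

end Pool.Agent.H274R5.FF
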