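import Pool.Agent.H274R5.FFWin0

namespace Pool.Agent.H274R5.FF

open Finset

lemma lt_add_of_div_eq {a a' d : ℕ} (hd : 0 < d) (h : a / d = a' / d) : a ≤ a' + d := by
  have h1 := Nat.div_add_mod a d
  have h2 := Nat.div_add_mod a' d
  have h3 := Nat.mod_lt a hd
  rw [h] at h1
  omega

lemma half_floor {x : ℝ} (hx : 1 ≤ x) : x / 2 ≤ (⌊x⌋₊ : ℝ) ∧ (⌊x⌋₊ : ℝ) ≤ x ∧ 1 ≤ ⌊x⌋₊ := by
  have h1 : 1 ≤ ⌊x⌋₊ := Nat.le_floor (by exact_mod_cast hx)
  have h2 := Nat.lt_floor_add_one x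
  have h3 : (1 : ℝ) ≤ (⌊x⌋₊ : ℝ) := by exact_mod_cast h1
  exact ⟨by linarith, Nat.floor_le (by linarith), h1⟩

theorem window (S : Finset ℕ) (hS : ∀ p ∈ S, Nat.Prime p) (γ : ℝ) (hγ0 : 0 < γ)
    (hγ1 : γ ≤ 1 / 2) :
    ∃ Q N1 : ℕ, 1 ≤ Q ∧ ∀ r : ℕ, r = S.card + 2 → ∀ N Λ : ℕ, N1 ≤ N → 1 ≤ Λ →
      ((r * Λ * (Q * r * Λ) ^ (S.card + 1) : ℕ) : ℝ) ^ 2 ≤ γ / 4 * Real.log N →
      ∀ (n : Fin r → ℕ) (k : Fin r → ℕ → ℕ),
        (∀ i, N ≤ n i) → (∀ i, n i ≤ Λ * N) → (∀ i j, i < j → 2 * n i ≤ n j) →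
        (∀ i, Good γ S (n i) (k i)) → False := by
  classical
  obtain ⟨L, hL⟩ : ∃ L, L = ∑ p ∈ S, Real.log p := ⟨_, rfl⟩
  have hL0 : 0 ≤ L := hL ▸ Finset.sum_nonneg fun p _ => Real.log_natCast_nonneg p
  obtain ⟨δ1, hδ1⟩ : ∃ δ1, δ1 = γ / (8 * (L + 1)) := ⟨_, rfl⟩
  obtain ⟨δ2, hδ2⟩ : ∃ δ2, δ2 = γ / 16 := ⟨_, rfl⟩
  have hδ10 : 0 < δ1 := by rw [hδ1]; positivity
  have hδ20 : 0 < δ2 := by rw [hδ2]; positivity
  have hδ1L : δ1 * L ≤ γ / 8 := by
    rw [hδ1]
    have h1 : γ / (8 * (L + 1)) * L = (γ / 8) * (L / (L + 1)) := by field_simp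
    rw [h1]
    have h2 : L / (L + 1) ≤ 1 := by rw [div_le_one (by linarith)]; linarith
    nlinarith
  refine ⟨⌈12 / δ1⌉₊ + ⌈2 / δ2⌉₊ + 1, ⌈1 / δ1⌉₊ + ⌈1 / δ2⌉₊ + 2 * S.sup id + 3, by omega, ?_⟩
  obtain ⟨Q, hQ⟩ : ∃ Q, Q = ⌈12 / δ1⌉₊ + ⌈2 / δ2⌉₊ + 1 := ⟨_, rfl⟩
  rw [← hQ]
  intro r hr N Λ hN1 hΛ hsm n k hn hnΛ hsep hgood
  have hQ1 : 12 / δ1 < Q := by
    have h1 := Nat.le_ceil (12 / δ1)
    have h2 : ((⌈12 / δ1⌉₊ : ℕ) : ℝ) + 1 ≤ Q := by
      rw [hQ]; push_cast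
      have : (0 : ℝ) ≤ (⌈2 / δ2⌉₊ : ℕ) := Nat.cast_nonneg _
      linarith
    linarith
  have hQ2 : 2 / δ2 < Q := by
    have h1 := Nat.le_ceil (2 / δ2)
    have h2 : ((⌈2 / δ2⌉₊ : ℕ) : ℝ) + 1 ≤ Q := by
      rw [hQ]; push_cast
      have : (0 : ℝ) ≤ (⌈12 / δ1⌉₊ : ℕ) := Nat.cast_nonneg _
      linarith
    linarith
  have hN3 : 3 ≤ N := by omega
  have hNr : (3 : ℝ) ≤ N := by exact_mod_cast hN3
  have hlogN : 1 ≤ Real.log N := by
    rw [Real.le_log_iff_exp_le (by linarith)]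
    have := Real.exp_one_lt_d9
    linarith
  have hNδ1 : 1 ≤ δ1 * N := by
    have h1 : 1 / δ1 ≤ N := (Nat.le_ceil _).trans (by exact_mod_cast (by omega))
    rwa [div_le_iff₀ hδ10, mul_comm] at h1
  have hNδ2 : 1 ≤ δ2 * N := by
    have h1 : 1 / δ2 ≤ N := (Nat.le_ceil _).trans (by exact_mod_cast (by omega))
    rwa [div_le_iff₀ hδ20, mul_comm] at h1
  have hSN : ∀ p ∈ S, 2 * p ≤ N := by
    intro p hp
    have : p ≤ S.sup id := Finset.le_sup (f := id) hp
    omega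
  set A : ℕ := (Q * r * Λ) ^ (S.card + 1) with hA
  set B : ℕ := r * Λ * A with hB
  have hQpos : 1 ≤ Q := by omega
  have hr1 : 1 ≤ r := by omega
  have hA1 : 1 ≤ A := Nat.one_le_pow _ _ (Nat.mul_pos (Nat.mul_pos hQpos hr1) hΛ)
  have hB1 : 1 ≤ B := Nat.mul_pos (Nat.mul_pos hr1 hΛ) hA1
  have hB1r : (1 : ℝ) ≤ B := by exact_mod_cast hB1
  have hrAB : r * A ≤ B := by
    rw [hB]
    calc r * A = r * 1 * A := by ring
      _ ≤ r * Λ * A := Nat.mul_le_mul_right _ (Nat.mul_le_mul_left _ hΛ)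
  have hΛB : Λ ≤ B := by
    rw [hB]
    calc Λ = 1 * Λ * 1 := by ring
      _ ≤ r * Λ * A := Nat.mul_le_mul (Nat.mul_le_mul_right _ hr1) hA1
  have hlogNN : Real.log N ≤ N := (Real.log_le_sub_one_of_pos (by linarith)).trans (by linarith)
  have hBN : (B : ℝ) ≤ N := by
    have h1 : (B : ℝ) ≤ (B : ℝ) ^ 2 := by nlinarith
    nlinarith
  have hBNn : B ≤ N := by exact_mod_cast hBN
  have hΛN : Λ ≤ N := hΛB.trans hBNn
  set E : ℝ := N * Real.log N with hE
  have hE1 : 1 ≤ E := by rw [hE]; nlinarith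
  have hE0 : 0 < E := by linarith
  -- sizes of `n i`
  have hnpos : ∀ i, (0 : ℝ) < n i := fun i => by
    have := hn i
    have : (0 : ℕ) < n i := by omega
    exact_mod_cast this
  have hlogn : ∀ i, Real.log (n i) ≤ 2 * Real.log N := by
    intro i
    have h1 : n i ≤ N ^ 2 := (hnΛ i).trans (by rw [pow_two]; exact Nat.mul_le_mul_right _ hΛN)
    have h2 : Real.log (n i) ≤ Real.log ((N : ℝ) ^ 2) :=
      Real.log_le_log (hnpos i) (by exact_mod_cast h1)
    rw [Real.log_pow] at h2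
    exact_mod_cast h2
  have hlognN : ∀ i, Real.log N ≤ Real.log (n i) := fun i =>
    Real.log_le_log (by linarith) (by exact_mod_cast hn i)
  have hnE : ∀ i, (n i : ℝ) * Real.log (n i) ≤ 2 * Λ * E := by
    intro i
    have h1 : (n i : ℝ) ≤ Λ * N := by exact_mod_cast hnΛ i
    have h2 := hlogn i
    have h3 := hlognN i
    calc (n i : ℝ) * Real.log (n i) ≤ (Λ * N) * (2 * Real.log N) :=
          mul_le_mul h1 h2 (by linarith) (by positivity)
      _ = 2 * Λ * E := by rw [hE]; ring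
  have hEn : ∀ i, E ≤ (n i : ℝ) * Real.log (n i) := by
    intro i
    have h1 : (N : ℝ) ≤ n i := by exact_mod_cast hn i
    exact mul_le_mul h1 (hlognN i) (by linarith) (hnpos i).le
  -- cell sizes
  obtain ⟨d1a, d1b, d1c⟩ := half_floor (x := δ1 * E) (by rw [hE]; nlinarith)
  obtain ⟨d2a, d2b, d2c⟩ := half_floor hNδ2
  set d1 : ℕ := ⌊δ1 * E⌋₊ with hd1
  set d2 : ℕ := ⌊δ2 * N⌋₊ with hd2
  have hQd1 : 6 * E < Q * d1 := by
    have h1 : 12 < Q * δ1 := by rwa [div_lt_iff₀ hδ10] at hQ1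
    have h2 : (Q : ℝ) * (δ1 * E / 2) ≤ Q * d1 := mul_le_mul_of_nonneg_left d1a (Nat.cast_nonneg _)
    have h3 : (Q : ℝ) * (δ1 * E / 2) = (Q * δ1) * (E / 2) := by ring
    nlinarith
  have hQd2 : (N : ℝ) < Q * d2 := by
    have h1 : 2 < Q * δ2 := by rwa [div_lt_iff₀ hδ20] at hQ2
    have h2 : (Q : ℝ) * (δ2 * N / 2) ≤ Q * d2 := mul_le_mul_of_nonneg_left d2a (Nat.cast_nonneg _)
    have h3 : (Q : ℝ) * (δ2 * N / 2) = (Q * δ2) * (N / 2) := by ring
    nlinarith
  -- the pigeonhole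
  set V : Finset (Fin r → ℕ) := Fintype.piFinset (fun _ : Fin r => Finset.range (A + 1)) with hV
  set W : Finset ((S → ℕ) × ℕ) :=
    (Fintype.piFinset (fun _ : S => Finset.range (Q * B))) ×ˢ Finset.range (Q * B) with hW
  have hVc : V.card = (A + 1) ^ r := by
    rw [hV, Fintype.card_piFinset]; simp
  have hWc : W.card = (Q * B) ^ (S.card + 1) := by
    rw [hW, Finset.card_product, Fintype.card_piFinset]; simp [pow_succ]
  have hcard : W.card < V.card := by
    rw [hVc, hWc]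
    have h1 : (Q * B) ^ (S.card + 1) = A ^ (S.card + 2) := by
      have : Q * B = (Q * r * Λ) * A := by rw [hB]; ring
      rw [this, mul_pow, ← hA, pow_succ A (S.card + 1)]; ring
    rw [h1, hr]
    exact Nat.pow_lt_pow_left (Nat.lt_succ_self A) (by omega)
  have hVmem : ∀ b ∈ V, ∀ i, b i ≤ A := by
    intro b hb i
    rw [hV, Fintype.mem_piFinset] at hb
    have := hb i
    rw [Finset.mem_range] at this
    omega
  have hTb : ∀ b ∈ V, ∑ i, b i * n i ≤ B * N := by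
    intro b hb
    calc ∑ i, b i * n i ≤ ∑ _i : Fin r, A * (Λ * N) :=
          Finset.sum_le_sum fun i _ => Nat.mul_le_mul (hVmem b hb i) (hnΛ i)
      _ = B * N := by rw [Finset.sum_const, Finset.card_univ, Fintype.card_fin, hB]; simp; ring
  have hκb : ∀ b ∈ V, ∀ p ∈ S, ((∑ i, b i * k i p : ℕ) : ℝ) ≤ B * (6 * E) := by
    intro b hb p hp
    push_cast
    calc ∑ i, (b i : ℝ) * k i p ≤ ∑ _i : Fin r, (A : ℝ) * (6 * Λ * E) := by
          apply Finset.sum_le_sum
          intro i _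
          have h1 : (b i : ℝ) ≤ A := by exact_mod_cast hVmem b hb i
          have h2 := (hgood i).2 p hp
          have h3 := hnE i
          exact mul_le_mul h1 (by linarith) (Nat.cast_nonneg _) (Nat.cast_nonneg _)
      _ = B * (6 * E) := by
          rw [Finset.sum_const, Finset.card_univ, Fintype.card_fin, hB]
          simp
          ring
  have hmaps : Set.MapsTo (fun b : Fin r → ℕ =>
      ((fun p : S => (∑ i, b i * k i p) / d1), (∑ i, b i * n i) / d2)) ↑V ↑W := by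
    intro b hb
    have hb' : b ∈ V := hb
    rw [hW, Finset.mem_coe, Finset.mem_product, Fintype.mem_piFinset]
    refine ⟨fun p => ?_, ?_⟩
    · rw [Finset.mem_range, Nat.div_lt_iff_lt_mul (by omega)]
      have h1 := hκb b hb' p p.2
      have h2 : (B : ℝ) * (6 * E) < B * (Q * d1) := mul_lt_mul_of_pos_left hQd1 (by linarith)
      have h3 : ((∑ i, b i * k i p : ℕ) : ℝ) < ((Q * B * d1 : ℕ) : ℝ) := by
        push_cast
        push_cast at h1
        linarith
      exact_mod_cast h3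
    · rw [Finset.mem_range, Nat.div_lt_iff_lt_mul (by omega)]
      have h1 := hTb b hb'
      have h1r : ((∑ i, b i * n i : ℕ) : ℝ) ≤ B * N := by exact_mod_cast h1
      have h2 : (B : ℝ) * N < B * (Q * d2) := mul_lt_mul_of_pos_left hQd2 (by linarith)
      have h3 : ((∑ i, b i * n i : ℕ) : ℝ) < ((Q * B * d2 : ℕ) : ℝ) := by
        push_cast
        push_cast at h1r
        linarith
      exact_mod_cast h3
  obtain ⟨b, hb, b', hb', hne, heq⟩ := Finset.exists_ne_map_eq_of_card_lt_of_maps_to hcard hmaps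
  rw [Prod.mk.injEq] at heq
  obtain ⟨heq1, heq2⟩ := heq
  have hκκ : ∀ p ∈ S, ∑ i, b i * k i p ≤ ∑ i, b' i * k i p + d1 := by
    intro p hp
    exact lt_add_of_div_eq (by omega) (congrFun heq1 ⟨p, hp⟩)
  -- apply the master lemma
  have hBle : (B : ℝ) ^ 2 ≤ γ / 4 * Real.log N := hsm
  have hexp4 : 4 * (B : ℝ) < Real.exp (γ / 2 * E) := by
    have h1 := Real.add_one_le_exp (γ / 2 * E)
    have h2 : γ / 2 * E = 2 * N * (γ / 4 * Real.log N) := by rw [hE]; ring
    have h3 : 2 * (N : ℝ) * (B : ℝ) ^ 2 ≤ 2 * N * (γ / 4 * Real.log N) :=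
      mul_le_mul_of_nonneg_left hBle (by linarith)
    have h4 : 4 * (B : ℝ) ≤ 2 * (N : ℝ) * (B : ℝ) ^ 2 := by nlinarith
    linarith
  have hrA : ((Fintype.card (Fin r) : ℕ) : ℝ) * A ≤ B := by
    rw [Fintype.card_fin]; exact_mod_cast hrAB
  have hrA0 : 0 ≤ ((Fintype.card (Fin r) : ℕ) : ℝ) * A := by positivity
  have hexpneg : 4 * (B : ℝ) * Real.exp (-(γ / 2 * E)) < 1 := by
    rw [Real.exp_neg, ← div_eq_mul_inv, div_lt_one (Real.exp_pos _)]
    exact hexp4
  have hUN : Real.log ((B * N : ℕ) : ℝ) = Real.log B + Real.log N := by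
    push_cast
    rw [Real.log_mul (by linarith) (by linarith)]
  have hlogB : Real.log B + 1 ≤ B := by
    have := Real.log_le_sub_one_of_pos (show (0 : ℝ) < B by linarith)
    linarith
  have hlogBN : Real.log B ≤ Real.log N := Real.log_le_log (by linarith) hBN
  have hlogB0 : 0 ≤ Real.log B := Real.log_nonneg hB1r
  have hid := master S hS n k b b' N (B * N) A d1 d2 (2 * Real.exp (-(γ * E)))
    (by omega) hn
    (fun i => by
      refine (hgood i).1.trans ?_
      apply mul_le_mul_of_nonneg_left _ (by norm_num)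
      apply Real.exp_le_exp.mpr
      have := hEn i
      nlinarith)
    (hVmem b hb) (hVmem b' hb') (Nat.le_mul_of_pos_left N hB1) (hTb b hb) (hTb b' hb')
    (lt_add_of_div_eq (by omega) heq2) (lt_add_of_div_eq (by omega) heq2.symm) hκκ
    (by
      have h1 : ((Fintype.card (Fin r) : ℕ) : ℝ) * A * (2 * Real.exp (-(γ * E))) ≤
          B * (2 * Real.exp (-(γ / 2 * E))) := by
        apply mul_le_mul hrA _ (by positivity) (by linarith)
        apply mul_le_mul_of_nonneg_left _ (by norm_num)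
        apply Real.exp_le_exp.mpr
        nlinarith
      have h2 : 0 < Real.exp (-(γ / 2 * E)) := Real.exp_pos _
      nlinarith)
    (by
      rw [← hL, hUN]
      have h1 : ((B * N : ℕ) : ℝ) * (Real.log B + Real.log N - Real.log N + 1) ≤ γ / 4 * E := by
        push_cast
        have h2 : (B : ℝ) * N * (Real.log B + Real.log N - Real.log N + 1) ≤
            (B : ℝ) * N * B := by
          apply mul_le_mul_of_nonneg_left _ (by positivity)
          linarith
        have h3 : (N : ℝ) * (B : ℝ) ^ 2 ≤ N * (γ / 4 * Real.log N) :=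
          mul_le_mul_of_nonneg_left hBle (by linarith)
        have h4 : (N : ℝ) * (γ / 4 * Real.log N) = γ / 4 * E := by rw [hE]; ring
        nlinarith
      have h2 : (d2 : ℝ) * (Real.log B + Real.log N) ≤ γ / 8 * E := by
        have h3 : (d2 : ℝ) * (Real.log B + Real.log N) ≤ (δ2 * N) * (2 * Real.log N) :=
          mul_le_mul d2b (by linarith) (by linarith) (by positivity)
        have h4 : (δ2 * N) * (2 * Real.log N) = γ / 8 * E := by rw [hE, hδ2]; ring
        linarith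
      have h3 : (d1 : ℝ) * L ≤ γ / 8 * E := by
        have h4 : (d1 : ℝ) * L ≤ (δ1 * E) * L := mul_le_mul_of_nonneg_right d1b hL0
        have h5 : (δ1 * E) * L = (δ1 * L) * E := by ring
        nlinarith
      have h4 : Real.exp (((B * N : ℕ) : ℝ) * (Real.log B + Real.log N - Real.log N + 1) +
          d2 * (Real.log B + Real.log N) + d1 * L) ≤ Real.exp (γ / 2 * E) := by
        apply Real.exp_le_exp.mpr
        linarith
      have h5 : Real.exp (γ / 2 * E) * Real.exp (-(γ * E)) = Real.exp (-(γ / 2 * E)) := by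
        rw [← Real.exp_add]; congr 1; ring
      calc Real.exp (((B * N : ℕ) : ℝ) * (Real.log B + Real.log N - Real.log N + 1) +
          d2 * (Real.log B + Real.log N) + d1 * L) *
            (2 * (((Fintype.card (Fin r) : ℕ) : ℝ) * A * (2 * Real.exp (-(γ * E)))))
          ≤ Real.exp (γ / 2 * E) * (2 * (B * (2 * Real.exp (-(γ * E))))) := by
            apply mul_le_mul h4 _ (by positivity) (Real.exp_pos _).le
            apply mul_le_mul_of_nonneg_left _ (by norm_num)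
            exact mul_le_mul_of_nonneg_right hrA (by positivity)
        _ = 4 * B * (Real.exp (γ / 2 * E) * Real.exp (-(γ * E))) := by ring
        _ = 4 * B * Real.exp (-(γ / 2 * E)) := by rw [h5]
        _ < 1 := hexpneg)
  exact contra S hS n k b b' hne N hSN (by omega) hn hsep hid

end Pool.Agent.H274R5.FF
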