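import Pool.Agent.H274R5.FFMaster

namespace Pool.Agent.H274R5.FF

open Finset

lemma not_dvd_su (S : Finset ℕ) (hS : ∀ p ∈ S, Nat.Prime p) (k : ℕ → ℕ) (q : ℕ)
    (hq : q.Prime) (hqS : q ∉ S) : ¬ q ∣ su S k := by
  intro h
  unfold su at h
  obtain ⟨p, hp, hd⟩ := (Prime.dvd_finsetProd_iff hq.prime _).mp h
  have := hq.dvd_of_dvd_pow hd
  rw [Nat.prime_dvd_prime_iff_eq hq (hS p hp)] at this
  exact hqS (this ▸ hp)

lemma contra {r : ℕ} (S : Finset ℕ) (hS : ∀ p ∈ S, Nat.Prime p) (n : Fin r → ℕ)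
    (k : Fin r → ℕ → ℕ) (b b' : Fin r → ℕ) (hne : b ≠ b') (N : ℕ)
    (hSN : ∀ p ∈ S, 2 * p ≤ N) (hN : 2 ≤ N) (hn : ∀ i, N ≤ n i)
    (hsep : ∀ i j, i < j → 2 * n i ≤ n j)
    (hid : (∏ i, (n i).factorial ^ b i) * (∏ i, su S (k i) ^ b' i) =
      (∏ i, (n i).factorial ^ b' i) * (∏ i, su S (k i) ^ b i)) : False := by
  classical
  have hne' : (Finset.univ.filter fun i => b i ≠ b' i).Nonempty := by
    by_contra h
    rw [Finset.not_nonempty_iff_eq_empty, Finset.filter_eq_empty_iff] at h
    apply hne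
    funext i
    have := h (Finset.mem_univ i)
    push Not at this
    exact this
  set i := (Finset.univ.filter fun i => b i ≠ b' i).max' hne' with hi
  have hib : b i ≠ b' i := by
    have := Finset.max'_mem _ hne'
    rw [Finset.mem_filter] at this
    exact this.2
  have hgt : ∀ j, i < j → b j = b' j := by
    intro j hj
    by_contra h
    have := Finset.le_max' (Finset.univ.filter fun i => b i ≠ b' i) j
      (Finset.mem_filter.mpr ⟨Finset.mem_univ j, h⟩)
    exact absurd (lt_of_lt_of_le hj this) (lt_irrefl _)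
  have hni := hn i
  obtain ⟨q, hq, hq1, hq2⟩ := Nat.exists_prime_lt_and_le_two_mul (n i / 2) (by omega)
  have hqS : q ∉ S := by
    intro h
    have := hSN q h
    omega
  have hv0 : ∀ j, j < i → (n j).factorial.factorization q = 0 := by
    intro j hj
    apply Nat.factorization_factorial_eq_zero_of_lt
    have := hsep j i hj
    omega
  have hvi : 0 < (n i).factorial.factorization q := by
    have : q ∣ (n i).factorial := (hq.dvd_factorial).mpr (by omega)
    exact (hq.dvd_iff_one_le_factorization (Nat.factorial_ne_zero _)).mp this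
  have hs0 : ∀ j, (su S (k j)).factorization q = 0 := fun j =>
    Nat.factorization_eq_zero_of_not_dvd (not_dvd_su S hS (k j) q hq hqS)
  have hfac : ∀ c : Fin r → ℕ, (∏ i, (n i).factorial ^ c i).factorization q =
      ∑ i, c i * (n i).factorial.factorization q := by
    intro c
    rw [Nat.factorization_prod (fun i _ => pow_ne_zero _ (Nat.factorial_ne_zero _)),
      Finsupp.finset_sum_apply]
    refine Finset.sum_congr rfl fun i _ => ?_
    rw [Nat.factorization_pow]
    simp
  have hfacS : ∀ c : Fin r → ℕ, (∏ i, su S (k i) ^ c i).factorization q = 0 := by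
    intro c
    rw [Nat.factorization_prod (fun i _ => pow_ne_zero _ (su_pos S hS _).ne'),
      Finsupp.finset_sum_apply]
    refine Finset.sum_eq_zero fun i _ => ?_
    rw [Nat.factorization_pow]
    simp [hs0]
  have h1 : ∀ c : Fin r → ℕ, (∏ i, (n i).factorial ^ c i) ≠ 0 := fun c =>
    Finset.prod_ne_zero_iff.mpr fun i _ => pow_ne_zero _ (Nat.factorial_ne_zero _)
  have h2 : ∀ c : Fin r → ℕ, (∏ i, su S (k i) ^ c i) ≠ 0 := fun c =>
    Finset.prod_ne_zero_iff.mpr fun i _ => pow_ne_zero _ (su_pos S hS _).ne'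
  have h3 := congrArg (fun m => m.factorization q) hid
  rw [Nat.factorization_mul (h1 b) (h2 b'), Nat.factorization_mul (h1 b') (h2 b),
    Finsupp.add_apply, Finsupp.add_apply, hfac, hfac, hfacS, hfacS] at h3
  rw [← Finset.add_sum_erase _ _ (Finset.mem_univ i),
    ← Finset.add_sum_erase (a := i) _ (fun i => b' i * _) (Finset.mem_univ i)] at h3
  have h4 : ∑ x ∈ Finset.univ.erase i, b x * (n x).factorial.factorization q =
      ∑ x ∈ Finset.univ.erase i, b' x * (n x).factorial.factorization q := by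
    refine Finset.sum_congr rfl fun j hj => ?_
    rcases lt_trichotomy j i with h | h | h
    · rw [hv0 j h]; simp
    · exact absurd h (Finset.ne_of_mem_erase hj)
    · rw [hgt j h]
  rw [h4] at h3
  have h5 : b i * (n i).factorial.factorization q = b' i * (n i).factorial.factorization q := by
    omega
  exact hib (Nat.eq_of_mul_eq_mul_right hvi h5)

/-- `k` is the exponent vector of an `S`-unit very close to `n!`. -/
def Good (γ : ℝ) (S : Finset ℕ) (n : ℕ) (k : ℕ → ℕ) : Prop :=
  |Real.log (su S k) - Real.log n.factorial| ≤ 2 * Real.exp (-(γ * (n * Real.log n))) ∧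
    ∀ p ∈ S, (k p : ℝ) ≤ 3 * (n * Real.log n)

lemma good_of_close (S : Finset ℕ) (hS : ∀ p ∈ S, Nat.Prime p) (c : ℝ) (hc : c < 1) :
    ∃ N0 : ℕ, ∀ n : ℕ, N0 ≤ n → ∀ k : ℕ → ℕ,
      |(n.factorial : ℝ) - ∏ p ∈ S, (p : ℝ) ^ k p| ≤ Real.exp (c * n * Real.log n) →
        Good ((1 - c) / 2) S n k := by
  obtain ⟨γ, hγ⟩ : ∃ γ, γ = (1 - c) / 2 := ⟨_, rfl⟩
  have hγ0 : 0 < γ := by rw [hγ]; linarith
  refine ⟨⌈Real.exp (1 / γ + 1)⌉₊, fun n hn k hk => ?_⟩
  rw [← hγ]
  have hn1 : Real.exp (1 / γ + 1) ≤ n := Nat.ceil_le.mp hn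
  have hpos : (0 : ℝ) < n := lt_of_lt_of_le (Real.exp_pos _) hn1
  have hnn : 1 ≤ n := by
    have : 0 < n := by exact_mod_cast hpos
    omega
  have hn1r : (1 : ℝ) ≤ n := by exact_mod_cast hnn
  have hlog : 1 / γ + 1 ≤ Real.log n := (Real.le_log_iff_exp_le hpos).mpr hn1
  have hg1 : 0 < 1 / γ := by positivity
  have hlog1 : 1 ≤ Real.log n := by linarith
  have hγlog : 1 ≤ γ * Real.log n := by
    have : γ * (1 / γ + 1) ≤ γ * Real.log n := mul_le_mul_of_nonneg_left hlog hγ0.le
    have h2 : γ * (1 / γ + 1) = 1 + γ := by field_simp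
    linarith
  have hf : (0 : ℝ) < n.factorial := by exact_mod_cast n.factorial_pos
  have hsu : ((su S k : ℕ) : ℝ) = ∏ p ∈ S, (p : ℝ) ^ k p := by unfold su; push_cast; rfl
  have hsup : (0 : ℝ) < su S k := by exact_mod_cast su_pos S hS k
  rw [← hsu] at hk
  -- ratio
  set y : ℝ := (su S k : ℝ) / n.factorial with hy
  have hy0 : 0 < y := div_pos hsup hf
  set e : ℝ := Real.exp (-(γ * (n * Real.log n))) with he
  have he0 : 0 < e := Real.exp_pos _
  have hye : |y - 1| ≤ e := by
    have h1 : y - 1 = -(((n.factorial : ℝ) - su S k) / n.factorial) := by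
      rw [hy]; field_simp; ring
    rw [h1, abs_neg, abs_div, abs_of_pos hf, div_le_iff₀ hf]
    refine hk.trans ?_
    have h2 := log_fact_lb n hnn
    have h3 : Real.exp ((n : ℝ) * Real.log n - n) ≤ n.factorial :=
      (Real.le_log_iff_exp_le hf).mp h2
    calc Real.exp (c * n * Real.log n) ≤ Real.exp (-(γ * (n * Real.log n)) +
          ((n : ℝ) * Real.log n - n)) := by
          apply Real.exp_le_exp.mpr
          have h4 : c = 1 - 2 * γ := by rw [hγ]; ring
          rw [h4]
          nlinarith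
      _ = e * Real.exp ((n : ℝ) * Real.log n - n) := by rw [Real.exp_add]
      _ ≤ e * n.factorial := mul_le_mul_of_nonneg_left h3 he0.le
  have he2 : e ≤ 1 / 2 := by
    have h1 : Real.exp (-(γ * (n * Real.log n))) ≤ Real.exp (-1) := by
      apply Real.exp_le_exp.mpr
      nlinarith
    have h2 : Real.exp (-1) ≤ 1 / 2 := by
      rw [Real.exp_neg, inv_eq_one_div]
      apply one_div_le_one_div_of_le (by norm_num)
      have := Real.add_one_le_exp (1 : ℝ)
      linarith
    exact h1.trans h2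
  have habs := abs_le.mp hye
  have hlogy : |Real.log y| ≤ 2 * e := by
    have h1 : Real.log y ≤ y - 1 := Real.log_le_sub_one_of_pos hy0
    have h2 := Real.one_sub_inv_le_log_of_pos hy0
    have hyhalf : 1 / 2 ≤ y := by linarith
    have h3 : -(2 * e) ≤ 1 - y⁻¹ := by
      have h4 : 1 - y⁻¹ = (y - 1) / y := by field_simp
      rw [h4, le_div_iff₀ hy0]
      nlinarith
    rw [abs_le]
    constructor <;> linarith
  have hlogeq : Real.log y = Real.log (su S k) - Real.log n.factorial := by
    rw [hy, Real.log_div hsup.ne' hf.ne']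
  rw [hlogeq] at hlogy
  refine ⟨hlogy, fun p hp => ?_⟩
  have hls := log_su S hS k
  have h1 : (k p : ℝ) * Real.log p ≤ Real.log (su S k) := by
    rw [hls]
    exact Finset.single_le_sum (f := fun p => (k p : ℝ) * Real.log p)
      (fun q _ => mul_nonneg (Nat.cast_nonneg _) (Real.log_natCast_nonneg q)) hp
  have h2 := (abs_le.mp hlogy).2
  have h3 := log_fact_ub n
  have h4 : Real.log 2 ≤ Real.log p :=
    Real.log_le_log (by norm_num) (by exact_mod_cast (hS p hp).two_le)
  have h5 : (k p : ℝ) * Real.log 2 ≤ (k p : ℝ) * Real.log p :=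
    mul_le_mul_of_nonneg_left h4 (Nat.cast_nonneg _)
  have h6 := Real.log_two_gt_d9
  have h7 : (0 : ℝ) ≤ k p := Nat.cast_nonneg _
  have h8 : 1 ≤ (n : ℝ) * Real.log n := by nlinarith
  nlinarith

end Pool.Agent.H274R5.FF
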